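import Pool.Agent.Y232.FT2.ExF
import Pool.Agent.Y823.FT2.Cnt
import Pool.Agent.Y160.SL.Fin

/-!
# Existence over finite fields in explicit form

The proof is that of `Pool.Agent.Y232.FT2.stExF`, with an explicit conclusion.
-/

set_option autoImplicit false
set_option linter.all false

open Polynomial

namespace Pool.Agent.Y160.T2

open Pool.Agent.Y160.FT Pool.Agent.Y232.FT2
open Pool.Agent.Y160.SL (IsResidue IsBinom)

/-- Translating away from the `N`-th powers, by an element which is not zero. -/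
theorem tau_ex2 {k : Type} [Field k] [Finite k] {N m : ℕ} (hN : N ∣ Nat.card k - 1)
    (h : 2 * m * ((Nat.card k - 1) / N + 1) + 1 < Nat.card k) (ρ γ : Fin m → k) :
    ∃ τ : k, τ ≠ 0 ∧ (∀ i b, b ^ N ≠ ρ i - τ) ∧ (∀ i b, b ^ N ≠ γ i - τ) := by
  classical
  haveI := Fintype.ofFinite k
  set S : Finset k := (Finset.univ : Finset k).image fun b => b ^ N with hS
  have hSc := card_pow hN
  rw [← hS] at hSc
  set n := (Nat.card k - 1) / N + 1 with hn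
  have key : ∀ δ : Fin m → k,
      ((Finset.univ : Finset (Fin m)).biUnion fun i => S.image fun s => δ i - s).card ≤ m * n := by
    intro δ
    refine (Finset.card_biUnion_le_card_mul _ _ n ?_).trans ?_
    · intro i _
      exact Finset.card_image_le.trans hSc
    · rw [Finset.card_univ, Fintype.card_fin]
  set A := (Finset.univ : Finset (Fin m)).biUnion fun i => S.image fun s => ρ i - s with hA
  set B := (Finset.univ : Finset (Fin m)).biUnion fun i => S.image fun s => γ i - s with hB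
  have hu : (insert (0 : k) (A ∪ B)).card < Fintype.card k := by
    refine (Finset.card_insert_le _ _).trans_lt ?_
    rw [← Nat.card_eq_fintype_card]
    have h0 := Finset.card_union_le A B
    have h1 : A.card ≤ m * n := key ρ
    have h2 : B.card ≤ m * n := key γ
    have h3 : m * n + m * n = 2 * m * n := by ring
    omega
  obtain ⟨τ, hτ⟩ : ∃ τ : k, τ ∉ insert (0 : k) (A ∪ B) := by
    by_contra hcon
    have hcon := fun x => not_not.1 (not_exists.1 hcon x)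
    have : (Finset.univ : Finset k) ⊆ insert (0 : k) (A ∪ B) := fun x _ => hcon x
    have := Finset.card_le_card this
    rw [Finset.card_univ] at this
    omega
  rw [Finset.mem_insert, not_or, Finset.mem_union, not_or] at hτ
  refine ⟨τ, hτ.1, fun i b hb => hτ.2.1 ?_, fun i b hb => hτ.2.2 ?_⟩
  · refine Finset.mem_biUnion.2 ⟨i, Finset.mem_univ _, Finset.mem_image.2 ⟨b ^ N,
      Finset.mem_image.2 ⟨b, Finset.mem_univ _, rfl⟩, ?_⟩⟩
    rw [hb]; ring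
  · refine Finset.mem_biUnion.2 ⟨i, Finset.mem_univ _, Finset.mem_image.2 ⟨b ^ N,
      Finset.mem_image.2 ⟨b, Finset.mem_univ _, rfl⟩, ?_⟩⟩
    rw [hb]; ring

theorem exF2 (h : StCnt) {ℓ q s m p₀ : ℕ} (hℓ : ℓ.Prime) (hq : q = ℓ ^ (s + 1)) (hp : p₀.Prime)
    (hpℓ : p₀ ≠ ℓ) (hℓm : ℓ.Coprime m) (hpm : p₀.Coprime m) (hm : 0 < m) :
    ∃ (k : Type) (_ : Field k) (ζ z κ τ : k) (e' j N : ℕ), Finite k ∧ CharP k p₀ ∧
      IsPrimitiveRoot ζ q ∧ IsPrimitiveRoot z m ∧ κ ≠ 0 ∧ τ ≠ 0 ∧ j * q = e' * m + 1 ∧ 1 < N ∧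
      IsResidue ℓ q (fun i : Fin m => (1 - κ ^ m) ^ e' * z ^ (i : ℕ))
        (fun i : Fin m => κ * (1 - κ ^ m) ^ e' * z ^ (i : ℕ)) ((1 - κ ^ m) ^ j) ∧
      ∀ e : ℕ, IsBinom ℓ (N ^ e) (fun i : Fin m => (1 - κ ^ m) ^ e' * z ^ (i : ℕ))
        (fun i : Fin m => κ * (1 - κ ^ m) ^ e' * z ^ (i : ℕ)) τ := by
  classical
  obtain ⟨M, hM⟩ := h ℓ m hℓ
  obtain ⟨N, hN1, hN⟩ := Nat.exists_infinite_primes (ℓ + p₀ + 4 * m + 3)
  have hq0 : 0 < q := by rw [hq]; exact Nat.pow_pos hℓ.pos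
  have hℓq : ℓ ∣ q := by rw [hq]; exact dvd_pow_self _ (Nat.succ_ne_zero _)
  have hpq : p₀.Coprime q := by
    rw [hq]; exact Nat.Coprime.pow_right _ ((Nat.coprime_primes hp hℓ).2 hpℓ)
  have hpN : p₀.Coprime N := (Nat.coprime_primes hp hN).2 (by omega)
  have hℓN : ℓ.Coprime N := (Nat.coprime_primes hℓ hN).2 (by omega)
  obtain ⟨k, hk, t, D, hfin, hchar, ht, hTd, hcard, hB⟩ := field_ex ℓ p₀ (q * m * N)
    (M + 4 * m + 3) hℓ hp (Nat.Coprime.mul_right (Nat.Coprime.mul_right hpq hpm) hpN)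
    (Nat.mul_pos (Nat.mul_pos hq0 hm) hN.pos) ((hℓq.mul_right m).mul_right N)
  have hdk : p₀ ^ t - 1 ∣ Nat.card k - 1 := by rw [hcard]; exact Dvd.intro _ rfl
  have hTk := hTd.trans hdk
  have hqk : q ∣ Nat.card k - 1 := (Dvd.intro _ rfl : q ∣ q * (m * N)).trans (by
    rw [← mul_assoc]; exact hTk)
  have hmk : m ∣ Nat.card k - 1 := (Dvd.intro_left (q * N) (by ring) : m ∣ q * m * N).trans hTk
  have hmQ : m ∣ p₀ ^ t - 1 := (Dvd.intro_left (q * N) (by ring) : m ∣ q * m * N).trans hTd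
  have hNk : N ∣ Nat.card k - 1 := (Dvd.intro_left (q * m) rfl : N ∣ q * m * N).trans hTk
  obtain ⟨ζ, hζ⟩ := prim_ex (k := k) hqk
  obtain ⟨z, hz⟩ := prim_ex (k := k) hmk
  obtain ⟨g, hg0, hg⟩ := nonpow_ex (k := k) hℓ (hℓq.trans hqk)
  haveI : Fact p₀.Prime := ⟨hp⟩
  haveI := hchar
  have hQpos : 0 < p₀ ^ t := Nat.pow_pos hp.pos
  -- elements of the small field
  have P1 : ∀ x : k, x ≠ 0 → x ^ (p₀ ^ t) = x → R ℓ x 1 := by
    intro x hx hx'
    refine R_one_of_pow hℓ.pos hcard hx ?_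
    apply mul_left_cancel₀ hx
    rw [mul_one, ← pow_succ', Nat.sub_add_cancel hQpos, hx']
  have frob : ∀ x y : k, (x - y) ^ (p₀ ^ t) = x ^ (p₀ ^ t) - y ^ (p₀ ^ t) :=
    fun x y => sub_pow_char_pow x y t
  have hz1 : z ^ m = 1 := hz.pow_eq_one
  have hz0 : z ≠ 0 := hz.ne_zero hm.ne'
  have hzf : z ^ (p₀ ^ t) = z := by
    obtain ⟨d, hd⟩ := hmQ
    have e : p₀ ^ t = m * d + 1 := by omega
    rw [e, pow_succ, pow_mul, hz1, one_pow, one_mul]
  have hznf : ∀ n : ℕ, (z ^ n) ^ (p₀ ^ t) = z ^ n := by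
    intro n; rw [← pow_mul, mul_comm, pow_mul, hzf]
  have hzR : ∀ n : ℕ, R ℓ (z ^ n) 1 := fun n => P1 _ (pow_ne_zero _ hz0) (hznf n)
  have hneg : R ℓ (-1 : k) 1 := by
    refine P1 _ (neg_ne_zero.2 one_ne_zero) ?_
    have := frob 0 1
    rwa [zero_sub, zero_pow hQpos.ne', one_pow, zero_sub] at this
  have hzsub : ∀ i j : ℕ, z ^ i ≠ z ^ j → R ℓ (z ^ i - z ^ j) 1 := by
    intro i j hij
    refine P1 _ (sub_ne_zero.2 hij) ?_
    rw [frob, hznf, hznf]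
  have hinj : Function.Injective fun i : Fin m => z ^ (i : ℕ) := by
    intro i j hij
    exact Fin.ext (hz.pow_inj i.2 j.2 hij)
  -- the element `κ`
  obtain ⟨κ, hκ⟩ := hM k (hℓq.trans hqk) (by omega) (fun i => z ^ (i : ℕ))
    (fun i => if (i : ℕ) = 0 then g else 1) hinj (by
      intro i; split_ifs
      · exact hg0
      · exact one_ne_zero)
  have hκi : ∀ i : ℕ, i < m → i ≠ 0 → R ℓ (κ - z ^ i) 1 := by
    intro i hi hi0
    obtain ⟨y, hy, hy'⟩ := hκ ⟨i, hi⟩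
    dsimp only at hy'
    rw [if_neg hi0] at hy'
    exact ⟨y, hy, hy'⟩
  have hκg : R ℓ (κ - 1) g := by
    obtain ⟨y, hy, hy'⟩ := hκ ⟨0, hm⟩
    dsimp only at hy'
    rw [if_pos rfl, pow_zero] at hy'
    exact ⟨y, hy, hy'⟩
  have hκ1 : ¬ R ℓ (κ - 1) 1 := fun h' => hg (R_trans (R_symm hκg) h')
  have hκ10 : κ - 1 ≠ 0 := by
    obtain ⟨y, hy, hy'⟩ := hκg
    rw [hy']; exact mul_ne_zero hg0 (pow_ne_zero _ hy)
  have hκ0 : κ ≠ 0 := by
    rintro rfl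
    rw [zero_sub] at hκ1
    exact hκ1 hneg
  -- `1 - κ ^ m`
  have hw : R ℓ (1 - κ ^ m) (κ - 1) := by
    have e1 := X_pow_sub_C_eq_prod hz (α := (1 : k)) (a := 1) hm (one_pow m)
    have e2 : κ ^ m - 1 = ∏ i ∈ Finset.range m, (κ - z ^ i) := by
      have := congrArg (Polynomial.eval κ) e1
      rw [eval_sub, eval_pow, eval_X, eval_C, eval_prod] at this
      rw [this]
      refine Finset.prod_congr rfl fun i _ => ?_
      rw [eval_sub, eval_X, eval_C, mul_one]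
    have e3 : 1 - κ ^ m = -1 * ∏ i ∈ Finset.range m, (κ - z ^ i) := by rw [← e2]; ring
    rw [e3]
    obtain ⟨m', rfl⟩ : ∃ m', m = m' + 1 := ⟨m - 1, by omega⟩
    rw [Finset.prod_range_succ']
    have e4 : R ℓ (∏ i ∈ Finset.range m', (κ - z ^ (i + 1))) (∏ i ∈ Finset.range m', (1 : k)) :=
      R_prod _ _ _ fun i hi => hκi (i + 1) (by have := Finset.mem_range.1 hi; omega)
        (Nat.succ_ne_zero _)
    rw [Finset.prod_const_one] at e4
    have e5 := R_mul hneg (R_mul e4 (R_refl (κ - z ^ 0)))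
    rw [one_mul, one_mul, pow_zero] at e5
    rwa [pow_zero]
  have hw0 : (1 - κ ^ m) ≠ 0 := by
    obtain ⟨y, hy, hy'⟩ := hw
    rw [hy']; exact mul_ne_zero hκ10 (pow_ne_zero _ hy)
  -- the exponents
  have hqm : q.Coprime m := by rw [hq]; exact Nat.Coprime.pow_left _ hℓm
  obtain ⟨e', he'⟩ : ∃ e' : ℕ, q ∣ e' * m + 1 := by
    obtain ⟨x, -, hx⟩ := Nat.exists_mul_mod_eq_of_coprime (k := q) (n := m) (q - 1) hqm.symm
      hq0.ne'
    refine ⟨x, ?_⟩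
    have h1 : x * m ≡ q - 1 [MOD q] := by rw [mul_comm]; exact hx
    have h2 : x * m + 1 ≡ q - 1 + 1 [MOD q] := h1.add_right 1
    rw [Nat.sub_add_cancel hq0] at h2
    exact (Nat.modEq_zero_iff_dvd.1 (h2.trans (by rw [Nat.modEq_zero_iff_dvd])))
  obtain ⟨j, hj⟩ := he'
  have hℓe' : ¬ ℓ ∣ e' := by
    intro hd
    have h1 : ℓ ∣ e' * m + 1 := hℓq.trans (by rw [hj]; exact Dvd.intro _ rfl)
    have h2 : ℓ ∣ e' * m := hd.mul_right m
    exact hℓ.one_lt.ne' (Nat.dvd_one.1 ((Nat.dvd_add_right h2).1 h1))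
  set ρ0 : k := (1 - κ ^ m) ^ e' with hρ0
  set β : k := (1 - κ ^ m) ^ j with hβ
  have hρ00 : ρ0 ≠ 0 := pow_ne_zero _ hw0
  have hβ0 : β ≠ 0 := pow_ne_zero _ hw0
  have hβq : β ^ q = ρ0 ^ m * (1 - κ ^ m) := by
    rw [hβ, hρ0, ← pow_mul, mul_comm j, ← hj, pow_succ, pow_mul]
  have hρ1 : ¬ R ℓ ρ0 1 := by
    intro h'
    have h2 := R_trans (R_symm (R_pow hw e')) h'
    exact hℓe' (R_pow_one hℓ hκ10 hκ1 h2)
  obtain ⟨τ, hτ0, hτ1, hτ2⟩ := tau_ex2 (k := k) (N := N) (m := m) hNk (by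
    set u := (Nat.card k - 1) / N with hu
    have h1 : N * u ≤ Nat.card k - 1 := Nat.mul_div_le _ _
    have h2 : (4 * m) * u ≤ N * u := Nat.mul_le_mul (by omega) le_rfl
    have h3 : (4 * m) * u = 4 * (m * u) := by ring
    have h4 : 2 * m * (u + 1) = 2 * (m * u) + 2 * m := by ring
    omega) (fun i => ρ0 * z ^ (i : ℕ)) (fun i => κ * ρ0 * z ^ (i : ℕ))
  have key : ∀ α : k, ∏ i : Fin m, (X - C (α * z ^ (i : ℕ))) = X ^ m - C (α ^ m) := by
    intro α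
    rw [X_pow_sub_C_eq_prod hz (α := α) (a := α ^ m) hm rfl, ← Fin.prod_univ_eq_prod_range
      (fun i => X - C (z ^ i * α)) m]
    refine Finset.prod_congr rfl fun i _ => ?_
    rw [mul_comm]
  refine ⟨k, hk, ζ, z, κ, τ, e', j, N, hfin, hchar, hζ, hz, hκ0, hτ0, ?_, hN.one_lt,
    ⟨hβ0, ?_, ?_, ?_, ?_, ?_, ?_⟩, fun e => ⟨Nat.Coprime.pow_right _ hℓN, ?_, fun i => ⟨?_, ?_⟩⟩⟩
  · rw [mul_comm j, hj]
  · rw [key, key, hβq, sub_add, ← C_sub]
    congr 2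
    ring
  · intro i j hij
    exact hinj (mul_left_cancel₀ hρ00 hij)
  · intro i j hij
    exact hinj (mul_left_cancel₀ (mul_ne_zero hκ0 hρ00) hij)
  · intro c e _ H i j
    refine cond_redei hℓ hℓm hρ00 hρ1 (fun i => ρ0 * z ^ (i : ℕ)) ?_ c e H i j
    intro i j hij
    rw [← mul_sub]
    have h1 := R_mul (R_refl (ℓ := ℓ) ρ0) (hzsub i j fun h' => hij (hinj h'))
    rwa [mul_one] at h1
  · intro c e hc H i j
    refine cond_mat hℓ hρ00 hκ10 hκ1 (fun j i => κ * ρ0 * z ^ (j : ℕ) - ρ0 * z ^ (i : ℕ)) ?_ c hc e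
      H i j
    intro j i
    exact mat_rel ρ0 hz1 hzR hκi i j
  · intro c e hc H i j
    refine cond_mat hℓ hρ00 hκ10 hκ1 (fun i j => ρ0 * z ^ (i : ℕ) - κ * ρ0 * z ^ (j : ℕ)) ?_ c hc e
      H i j
    intro i j
    have h1 := R_mul hneg (mat_rel ρ0 hz1 hzR hκi i j)
    have h2 : -1 * (κ * ρ0 * z ^ (j : ℕ) - ρ0 * z ^ (i : ℕ)) =
      ρ0 * z ^ (i : ℕ) - κ * ρ0 * z ^ (j : ℕ) := by ring
    rw [h2, one_mul] at h1
    have h3 : (if j = i then κ - 1 else 1) = (if i = j then κ - 1 else 1) := by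
      simp only [eq_comm]
    rw [h3]
    exact h1
  · intro h0
    rw [CharP.cast_eq_zero_iff k p₀] at h0
    have h16 := Nat.Coprime.pow_right e hpN
    exact hp.one_lt.ne' (Nat.Coprime.eq_one_of_dvd h16 h0)
  · have h1 : (X ^ (N ^ e) + C (τ - ρ0 * z ^ (i : ℕ)) : k[X]) =
        X ^ (N ^ e) - C (ρ0 * z ^ (i : ℕ) - τ) := by
      rw [show τ - ρ0 * z ^ (i : ℕ) = -(ρ0 * z ^ (i : ℕ) - τ) by ring, C_neg, ← sub_eq_add_neg]
    rw [h1]
    exact X_pow_sub_C_irreducible_of_prime_pow hN (by omega) e fun b => hτ1 i b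
  · have h1 : (X ^ (N ^ e) + C (τ - κ * ρ0 * z ^ (i : ℕ)) : k[X]) =
        X ^ (N ^ e) - C (κ * ρ0 * z ^ (i : ℕ) - τ) := by
      rw [show τ - κ * ρ0 * z ^ (i : ℕ) = -(κ * ρ0 * z ^ (i : ℕ) - τ) by ring, C_neg,
        ← sub_eq_add_neg]
    rw [h1]
    exact X_pow_sub_C_irreducible_of_prime_pow hN (by omega) e fun b => hτ2 i b

/-- Existence over finite fields. -/
theorem exF3 {p s m p₀ : ℕ} (hp : p.Prime) (hm : 0 < m) (hcop : p.Coprime m) (hp₀ : p₀.Prime)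
    (hne : p₀ ≠ p) (hcop₀ : p₀.Coprime m) :
    ∃ (k : Type) (_ : Field k) (ζ : k) (ρ γ : Fin m → k) (β τ : k) (N : ℕ), Finite k ∧ CharP k p₀ ∧
      IsPrimitiveRoot ζ (p ^ (s + 1)) ∧ IsResidue p (p ^ (s + 1)) ρ γ β ∧ τ ≠ 0 ∧ 1 < N ∧
      ∀ e : ℕ, IsBinom p (N ^ e) ρ γ τ := by
  obtain ⟨k, _, ζ, z, κ, τ, e', j, N, hfin, hchar, hζ, -, -, hτ, -, hN, hR, hB⟩ :=
    exF2 Pool.Agent.Y823.FT2.stCnt hp (q := p ^ (s + 1)) rfl hp₀ hne hcop hcop₀ hm
  exact ⟨k, inferInstance, ζ, _, _, _, τ, N, hfin, hchar, hζ, hR, hτ, hN, hB⟩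

end Pool.Agent.Y160.T2
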