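import Pool.Agent.Y823.FT2.Cnt
import Pool.Agent.Y232.FT2.ExF

/-!
# The number of elements of large finite fields with prescribed power residue symbols

The proof is that of `Pool.Agent.Y823.FT2.stCnt`, with a bound for the number of the elements.
-/

set_option autoImplicit false

namespace Pool.Agent.Y160.T2

open Polynomial Finset
open Pool.Agent.H435R3.Weil
open Pool.Agent.Y823.FT2
open Pool.Agent.Y232.FT2 (R)

/-- There are at least `|k| / (2 l ^ m)` elements `x` such that the `x - a i` have prescribed classes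
modulo `l`-th powers. -/
theorem cnt (l m : ℕ) (hl : l.Prime) : ∃ M : ℕ, ∀ (k : Type) [Field k] [Fintype k],
    l ∣ Fintype.card k - 1 → M < Fintype.card k → ∀ (a c : Fin m → k), Function.Injective a →
    (∀ i, c i ≠ 0) → ∀ S : Finset k, (∀ x, (∀ i, R l (x - a i) (c i)) → x ∈ S) →
    Fintype.card k ≤ 2 * l ^ m * S.card := by
  classical
  obtain ⟨K, hK0, hK⟩ := wele l (m * l) hl.two_le
  refine ⟨Nat.ceil (((2 * (l : ℝ) ^ m * (K + m)) ^ 2)) + 1, ?_⟩
  intro k _ _ hdvd hM a c ha hc T hT
  obtain ⟨χ, hχ⟩ := MulChar.exists_mulChar_orderOf k hdvd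
    (Complex.isPrimitiveRoot_exp l hl.ne_zero)
  have hχl : χ ^ l = 1 := by rw [← hχ]; exact pow_orderOf_eq_one χ
  have hl1 : 1 < l := hl.one_lt
  -- the value of the product of the geometric sums
  have hbad : ∀ x : k, x ∉ T → (∀ i, x ≠ a i) →
      ∏ i, ∑ e ∈ range l, (χ ((c i)⁻¹ * (x - a i))) ^ e = 0 := by
    intro x hxT hx
    obtain ⟨i, hi⟩ : ∃ i, ¬ R l (x - a i) (c i) := by
      by_contra hcon
      push Not at hcon
      exact hxT (hT x hcon)
    refine Finset.prod_eq_zero (mem_univ i) (geom_zero ?_ ?_)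
    · rw [← MulChar.pow_apply' χ hl.ne_zero, hχl, MulChar.one_apply]
      exact (mul_ne_zero (inv_ne_zero (hc i)) (sub_ne_zero.2 (hx i))).isUnit
    · intro h1
      obtain ⟨y, hy0, hy⟩ := pow_of_chi hχ
        (mul_ne_zero (inv_ne_zero (hc i)) (sub_ne_zero.2 (hx i))) h1
      refine hi ⟨y, hy0, ?_⟩
      rw [← hy, mul_inv_cancel_left₀ (hc i)]
  have hnorm : ∀ x : k, ‖∏ i, ∑ e ∈ range l, (χ ((c i)⁻¹ * (x - a i))) ^ e‖ ≤ (l : ℝ) ^ m := by
    intro x
    rw [norm_prod]
    calc ∏ i, ‖∑ e ∈ range l, (χ ((c i)⁻¹ * (x - a i))) ^ e‖ ≤ ∏ _i : Fin m, (l : ℝ) := by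
          refine Finset.prod_le_prod (fun _ _ => norm_nonneg _) fun i _ => ?_
          refine (norm_sum_le _ _).trans ?_
          calc ∑ e ∈ range l, ‖(χ ((c i)⁻¹ * (x - a i))) ^ e‖ ≤ ∑ e ∈ range l, (1 : ℝ) := by
                refine Finset.sum_le_sum fun e _ => ?_
                rw [norm_pow]
                exact pow_le_one₀ (norm_nonneg _) (WELE.mc_norm_le_one χ _)
            _ = l := by simp
      _ = (l : ℝ) ^ m := by simp
  -- the sum over all elements is small
  have hS1 : ‖∑ x : k, ∏ i, ∑ e ∈ range l, (χ ((c i)⁻¹ * (x - a i))) ^ e‖ ≤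
      (T.card + m) * (l : ℝ) ^ m := by
    have h1 : ∑ x : k, ∏ i, ∑ e ∈ range l, (χ ((c i)⁻¹ * (x - a i))) ^ e =
        ∑ x ∈ T ∪ univ.image a, ∏ i, ∑ e ∈ range l, (χ ((c i)⁻¹ * (x - a i))) ^ e := by
      symm
      refine Finset.sum_subset (subset_univ _) fun x _ hx => hbad x ?_ fun i hi => hx ?_
      · intro hxT
        exact hx (mem_union_left _ hxT)
      · rw [hi]
        exact mem_union_right _ (mem_image_of_mem a (mem_univ i))
    rw [h1]
    refine (norm_sum_le _ _).trans ?_
    refine (Finset.sum_le_sum fun x _ => hnorm x).trans ?_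
    rw [Finset.sum_const, nsmul_eq_mul]
    have h2 : ((T ∪ univ.image a).card : ℝ) ≤ T.card + m := by
      have h3 : (univ.image a).card ≤ m := by
        refine card_image_le.trans ?_
        simp
      have h4 := card_union_le T (univ.image a)
      have h5 : (T ∪ univ.image a).card ≤ T.card + m := by omega
      exact_mod_cast h5
    exact mul_le_mul_of_nonneg_right h2 (by positivity)
  -- expansion
  have hexp : ∑ x : k, ∏ i, ∑ e ∈ range l, (χ ((c i)⁻¹ * (x - a i))) ^ e =
      ∑ e ∈ Fintype.piFinset fun _ : Fin m => range l, ∑ x : k, χ ((fe a c e).eval x) := by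
    rw [Finset.sum_comm]
    refine Finset.sum_congr rfl fun x _ => ?_
    rw [Finset.prod_univ_sum]
    refine Finset.sum_congr rfl fun e _ => ?_
    rw [fe_eval, map_prod]
    refine Finset.prod_congr rfl fun i _ => ?_
    rw [map_pow]
  have h0mem : (fun _ => 0 : Fin m → ℕ) ∈ Fintype.piFinset fun _ : Fin m => range l := by
    rw [Fintype.mem_piFinset]
    intro i
    exact mem_range.2 hl.pos
  have h0val : ∑ x : k, χ ((fe a c (fun _ => 0)).eval x) = (Fintype.card k : ℂ) := by
    simp only [fe_eval, pow_zero, Finset.prod_const_one, map_one]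
    simp
  have hrest : ‖∑ e ∈ (Fintype.piFinset fun _ : Fin m => range l).erase (fun _ => 0),
      ∑ x : k, χ ((fe a c e).eval x)‖ ≤ (l : ℝ) ^ m * (K * Real.sqrt (Fintype.card k)) := by
    refine (norm_sum_le _ _).trans ?_
    calc ∑ e ∈ (Fintype.piFinset fun _ : Fin m => range l).erase (fun _ => 0),
          ‖∑ x : k, χ ((fe a c e).eval x)‖ ≤
        ∑ e ∈ (Fintype.piFinset fun _ : Fin m => range l).erase (fun _ => 0),
          K * Real.sqrt (Fintype.card k) := by
          refine Finset.sum_le_sum fun e he => ?_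
          rw [mem_erase, Fintype.mem_piFinset] at he
          have he2 : ∀ i, e i < l := fun i => mem_range.1 (he.2 i)
          refine hK k hdvd χ ?_ hχl (fe a c e) (fe_deg a c e he2) (fe_ne a c hc e) ?_
          · intro h1
            rw [h1, orderOf_one] at hχ
            omega
          · obtain ⟨j, hj⟩ : ∃ j, e j ≠ 0 := by
              by_contra hn
              push Not at hn
              exact he.1 (funext hn)
            refine ⟨a j, ?_⟩
            rw [fe_rm a c ha hc]
            exact (Nat.coprime_of_lt_prime hj (he2 j) hl).symm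
      _ ≤ (l : ℝ) ^ m * (K * Real.sqrt (Fintype.card k)) := by
          rw [Finset.sum_const, nsmul_eq_mul]
          refine mul_le_mul_of_nonneg_right ?_ (by positivity)
          have h3 : ((Fintype.piFinset fun _ : Fin m => range l).erase
              (fun _ => 0)).card ≤ l ^ m := by
            refine (card_le_card (erase_subset _ _)).trans ?_
            rw [Fintype.card_piFinset]
            simp
          exact_mod_cast h3
  have hcard : (Fintype.card k : ℝ) ≤ T.card * (l : ℝ) ^ m +
      (l : ℝ) ^ m * (K + m) * Real.sqrt (Fintype.card k) := by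
    have h1 : (Fintype.card k : ℂ) =
        (∑ x : k, ∏ i, ∑ e ∈ range l, (χ ((c i)⁻¹ * (x - a i))) ^ e) -
        ∑ e ∈ (Fintype.piFinset fun _ : Fin m => range l).erase (fun _ => 0),
          ∑ x : k, χ ((fe a c e).eval x) := by
      rw [hexp, ← Finset.add_sum_erase _ _ h0mem, h0val]
      ring
    have h2 : (Fintype.card k : ℝ) = ‖(Fintype.card k : ℂ)‖ := by simp
    have h3 : (Fintype.card k : ℝ) ≤ (T.card + m) * (l : ℝ) ^ m +
        (l : ℝ) ^ m * (K * Real.sqrt (Fintype.card k)) := by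
      rw [h2, h1]
      refine (norm_sub_le _ _).trans ?_
      refine (add_le_add hS1 hrest).trans ?_
      rw [← h1, ← h2]
    have hq1 : (1 : ℝ) ≤ Real.sqrt (Fintype.card k) := by
      rw [Real.one_le_sqrt]
      exact_mod_cast Fintype.card_pos
    have h4 : (0 : ℝ) ≤ m * (l : ℝ) ^ m := by positivity
    nlinarith
  have hM' : (2 * (l : ℝ) ^ m * (K + m)) ^ 2 < (Fintype.card k : ℝ) := by
    have h1 : (2 * (l : ℝ) ^ m * (K + m)) ^ 2 ≤ Nat.ceil (((2 * (l : ℝ) ^ m * (K + m)) ^ 2)) :=
      Nat.le_ceil _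
    have h2 : ((Nat.ceil (((2 * (l : ℝ) ^ m * (K + m)) ^ 2)) + 1 : ℕ) : ℝ) ≤
        (Fintype.card k : ℝ) := by exact_mod_cast hM.le
    push_cast at h2
    linarith
  have hs : Real.sqrt (Fintype.card k) ^ 2 = (Fintype.card k : ℝ) :=
    Real.sq_sqrt (Nat.cast_nonneg _)
  have hs0 : 0 < Real.sqrt (Fintype.card k) := by
    apply Real.sqrt_pos.2
    exact_mod_cast Fintype.card_pos
  have hA : 0 ≤ 2 * (l : ℝ) ^ m * (K + m) := by positivity
  have h5 : 2 * (l : ℝ) ^ m * (K + m) < Real.sqrt (Fintype.card k) := by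
    rw [← hs] at hM'
    exact lt_of_pow_lt_pow_left₀ 2 hs0.le hM'
  have h6 : 2 * ((l : ℝ) ^ m * (K + m) * Real.sqrt (Fintype.card k)) ≤ Fintype.card k := by
    have h8 := mul_le_mul_of_nonneg_right h5.le hs0.le
    rw [← sq, hs] at h8
    calc 2 * ((l : ℝ) ^ m * (K + m) * Real.sqrt (Fintype.card k)) =
        2 * (l : ℝ) ^ m * (K + m) * Real.sqrt (Fintype.card k) := by ring
      _ ≤ _ := h8
  have h7 : (Fintype.card k : ℝ) ≤ 2 * (l : ℝ) ^ m * T.card := by
    nlinarith
  exact_mod_cast h7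

end Pool.Agent.Y160.T2
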