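import Mathlib

/-!
# A discrete valuation ring of a number field with a given residue field and Teichmueller lifts
-/

set_option autoImplicit false
set_option linter.all false

open Polynomial NumberField

namespace Pool.Agent.Y160.T2

theorem prim_pow {A B : Type} [CommMonoid A] [CommMonoid B] {x : A} {y : B} {n : ℕ}
    (hx : IsPrimitiveRoot x n) (hy : IsPrimitiveRoot y n) {a m : ℕ}
    (h : IsPrimitiveRoot (x ^ a) m) : IsPrimitiveRoot (y ^ a) m := by
  refine ⟨?_, fun l hl => ?_⟩
  · rw [← pow_mul, hy.pow_eq_one_iff_dvd, ← hx.pow_eq_one_iff_dvd, pow_mul]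
    exact h.pow_eq_one
  · apply h.dvd_of_pow_eq_one
    rw [← pow_mul, hx.pow_eq_one_iff_dvd, ← hy.pow_eq_one_iff_dvd, pow_mul]
    exact hl

/-- The discrete valuation ring. -/
theorem cyc (F : Type) [Field F] [Finite F] :
    ∃ (k O : Type) (_ : Field k) (_ : NumberField k) (_ : CommRing O) (_ : IsDomain O)
      (_ : IsDiscreteValuationRing O) (_ : Algebra O k) (_ : IsFractionRing O k) (π : O →+* F)
      (_ : IsLocalHom π) (Z : O) (n : ℕ), IsPrimitiveRoot Z n ∧ IsPrimitiveRoot (π Z) n ∧
      ∀ x : F, x ≠ 0 → ∃ a : ℕ, x = π Z ^ a := by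
  classical
  haveI : Fintype F := Fintype.ofFinite F
  obtain ⟨g, hg⟩ := IsCyclic.exists_generator (α := Fˣ)
  have hn : orderOf g = Nat.card Fˣ := orderOf_eq_card_of_forall_mem_zpowers hg
  set n := Nat.card Fˣ with hn'
  have hn0 : 0 < n := Nat.card_pos
  haveI : NeZero n := ⟨hn0.ne'⟩
  have hgn : IsPrimitiveRoot (g : F) n := by
    have h1 : IsPrimitiveRoot g n := hn ▸ IsPrimitiveRoot.orderOf g
    exact h1.map_of_injective (f := Units.coeHom F) Units.val_injective
  haveI : NeZero (n : F) := hgn.neZero'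
  haveI : NeZero ((n : ℕ) : ℚ) := NeZero.charZero
  let K := CyclotomicField n ℚ
  haveI : IsCyclotomicExtension {n} ℚ K := CyclotomicField.isCyclotomicExtension n ℚ
  haveI : NumberField K := IsCyclotomicExtension.numberField {n} ℚ K
  let ζ : K := IsCyclotomicExtension.zeta n ℚ K
  have hζ : IsPrimitiveRoot ζ n := IsCyclotomicExtension.zeta_spec n ℚ K
  have hmin : minpoly ℤ hζ.integralPowerBasis.gen = cyclotomic n ℤ := by
    rw [hζ.integralPowerBasis_gen, cyclotomic_eq_minpoly hζ hn0]
    exact (minpoly.algebraMap_eq (A := ℤ) (B := 𝓞 K) (B' := K) RingOfIntegers.coe_injective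
      hζ.toInteger).symm
  let π0 : 𝓞 K →ₐ[ℤ] F := hζ.integralPowerBasis.lift (g : F) (by
    rw [hmin]
    have h1 := (isRoot_cyclotomic_iff (R := F)).2 hgn
    rw [IsRoot.def, ← map_cyclotomic_int, eval_map] at h1
    rw [aeval_def]
    exact h1)
  have hπ0 : π0 hζ.toInteger = g := by
    rw [← hζ.integralPowerBasis_gen]
    exact hζ.integralPowerBasis.lift_gen _ _
  let v : Ideal (𝓞 K) := RingHom.ker (π0 : 𝓞 K →+* F)
  haveI hv : v.IsPrime := RingHom.ker_isPrime _
  obtain ⟨c, hc⟩ := CharP.exists F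
  have hcp : c.Prime := CharP.char_is_prime F c
  have hvb : v ≠ ⊥ := by
    intro h0
    have h1 : (c : 𝓞 K) ∈ v := by
      show π0 (c : 𝓞 K) = 0
      rw [map_natCast, CharP.cast_eq_zero]
    rw [h0, Ideal.mem_bot, Nat.cast_eq_zero] at h1
    exact hcp.ne_zero h1
  let O := Localization.AtPrime v
  haveI : IsDomain O := IsLocalization.isDomain_localization v.primeCompl_le_nonZeroDivisors
  haveI : IsDiscreteValuationRing O :=
    IsLocalization.AtPrime.isDiscreteValuationRing_of_dedekind_domain (𝓞 K) hvb O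
  have hunit : ∀ y : v.primeCompl, IsUnit (algebraMap (𝓞 K) K y) := by
    intro y
    refine IsUnit.mk0 _ ?_
    rw [Ne, map_eq_zero_iff _ (IsFractionRing.injective (𝓞 K) K)]
    rintro h0
    exact y.2 (by rw [h0]; exact v.zero_mem)
  letI : Algebra O K := (IsLocalization.lift (S := O) hunit).toAlgebra
  haveI : IsScalarTower (𝓞 K) O K := IsScalarTower.of_algebraMap_eq fun x =>
    (IsLocalization.lift_eq hunit x).symm
  haveI : IsFractionRing O K :=
    IsFractionRing.isFractionRing_of_isDomain_of_isLocalization v.primeCompl O K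
  have hunitF : ∀ y : v.primeCompl, IsUnit ((π0 : 𝓞 K →+* F) y) := fun y =>
    IsUnit.mk0 _ y.2
  let π : O →+* F := IsLocalization.lift (S := O) hunitF
  have hπ : ∀ x : 𝓞 K, π (algebraMap (𝓞 K) O x) = π0 x := fun x => IsLocalization.lift_eq hunitF x
  haveI : IsLocalHom π := by
    refine ⟨fun x hx => ?_⟩
    obtain ⟨⟨a, s⟩, rfl⟩ := IsLocalization.mk'_surjective v.primeCompl x
    have h1 : π0 a ≠ 0 := by
      intro h0
      have h2 : π (IsLocalization.mk' O a s) * π (algebraMap (𝓞 K) O s) = 0 := by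
        rw [← map_mul, IsLocalization.mk'_spec, hπ, h0]
      have h3 : π (algebraMap (𝓞 K) O s) ≠ 0 := by rw [hπ]; exact s.2
      exact hx.ne_zero ((mul_eq_zero.1 h2).resolve_right h3)
    have h4 : a ∈ v.primeCompl := h1
    have h5 : IsUnit (algebraMap (𝓞 K) O a) := IsLocalization.map_units O ⟨a, h4⟩
    have h6 := IsLocalization.mk'_spec O a s
    refine isUnit_of_mul_isUnit_left (y := algebraMap (𝓞 K) O s) ?_
    rw [h6]
    exact h5
  have hinjO : Function.Injective (algebraMap (𝓞 K) O) :=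
    IsLocalization.injective O v.primeCompl_le_nonZeroDivisors
  have hZint : IsPrimitiveRoot hζ.toInteger n := hζ.toInteger_isPrimitiveRoot
  refine ⟨K, O, inferInstance, inferInstance, inferInstance, inferInstance, inferInstance,
    inferInstance, inferInstance, π, inferInstance, algebraMap (𝓞 K) O hζ.toInteger, n,
    hZint.map_of_injective hinjO, ?_, fun x hx => ?_⟩
  · rw [hπ, hπ0]; exact hgn
  · rw [hπ, hπ0]
    obtain ⟨a, -, ha⟩ := hgn.eq_pow_of_pow_eq_one (ξ := x) (by
      have h1 : (Units.mk0 x hx) ^ n = 1 := pow_card_eq_one'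
      have h2 := congrArg Units.val h1
      simpa using h2)
    exact ⟨a, ha.symm⟩

end Pool.Agent.Y160.T2
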