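import Pool.Agent.W976.MF.SPL

/-!
# Embeddings of number fields into fields of `P`-adic numbers
-/

set_option autoImplicit false
set_option linter.all false

open Polynomial

namespace Pool.Agent.Y160.T2

open Pool.Agent.W976.MF (schur clear_den)

theorem embed_ex (L : Type) [Field L] [NumberField L] (B : ℕ) :
    ∃ (P : ℕ) (_ : Fact P.Prime), B < P ∧ Nonempty (L →+* ℚ_[P]) := by
  classical
  set pb := Field.powerBasisOfFiniteOfSeparable ℚ L with hpb
  set f := minpoly ℚ pb.gen with hf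
  have hfsep : f.Separable := (minpoly.irreducible pb.isIntegral_gen).separable
  obtain ⟨D, G, hD, hG⟩ := clear_den f
  have hDQ : (D : ℚ) ≠ 0 := by exact_mod_cast hD
  have hGd : 0 < G.natDegree := by
    have h1 : (G.map (Int.castRingHom ℚ)).natDegree = G.natDegree :=
      natDegree_map_eq_of_injective Int.cast_injective G
    rw [← h1, hG, natDegree_C_mul hDQ]
    exact minpoly.natDegree_pos pb.isIntegral_gen
  obtain ⟨u, v, N0, hN0, huv⟩ : ∃ (u v : ℤ[X]) (N0 : ℕ), N0 ≠ 0 ∧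
      u * G + v * derivative G = C (N0 : ℤ) := by
    obtain ⟨a, b, hab⟩ := hfsep
    obtain ⟨Da, pa, hDa, hpa⟩ := clear_den a
    obtain ⟨Db, pb', hDb, hpb'⟩ := clear_den b
    refine ⟨C (Db : ℤ) * pa, C (Da : ℤ) * pb', Da * Db * D, mul_ne_zero (mul_ne_zero hDa hDb) hD, ?_⟩
    apply Polynomial.map_injective (Int.castRingHom ℚ) Int.cast_injective
    have e : ∀ n : ℕ, (Int.castRingHom ℚ) (n : ℤ) = (n : ℚ) := fun n => by simp
    have h3 : (C ((Da : ℚ) * Db * D) : ℚ[X]) = C ((Da : ℚ) * Db * D) * 1 := by rw [mul_one]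
    rw [Polynomial.map_add, Polynomial.map_mul, Polynomial.map_mul, Polynomial.map_mul,
      Polynomial.map_mul, map_C, map_C, map_C, ← derivative_map, hpa, hpb', hG, e, e, e, Nat.cast_mul,
      Nat.cast_mul, h3, ← hab, C_mul, C_mul, derivative_C_mul]
    ring
  obtain ⟨l, hl, hlS, a, hla⟩ := schur G hGd (Finset.range (B + 1) ∪ N0.primeFactors)
  rw [Finset.mem_union, not_or, Finset.mem_range, not_lt] at hlS
  obtain ⟨hlB, hlN⟩ := hlS
  have hfact : Fact l.Prime := ⟨hl⟩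
  refine ⟨l, hfact, by omega, ?_⟩
  have hlN' : ¬ l ∣ N0 := fun h => hlN (Nat.mem_primeFactors.2 ⟨hl, h, hN0⟩)
  have hder : ¬ (l : ℤ) ∣ (derivative G).eval a := by
    intro h
    have h1 := congrArg (eval a) huv
    rw [eval_add, eval_mul, eval_mul, eval_C] at h1
    have h2 : (l : ℤ) ∣ (N0 : ℤ) := by
      rw [← h1]
      exact dvd_add (hla.mul_left _) (h.mul_left _)
    exact hlN' (by exact_mod_cast h2)
  have hev : ∀ g : ℤ[X], aeval ((a : ℤ) : ℤ_[l]) g = ((g.eval a : ℤ) : ℤ_[l]) := by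
    intro g
    rw [aeval_def]
    have h1 := Polynomial.eval₂_at_apply (p := g) (Int.castRingHom ℤ_[l]) a
    exact h1
  obtain ⟨t, ht, -⟩ := hensels_lemma (p := l) (R := ℤ) (F := G) (a := ((a : ℤ) : ℤ_[l])) (by
    rw [hev, hev]
    have h1 : ‖(((derivative G).eval a : ℤ) : ℤ_[l])‖ = 1 := by
      refine le_antisymm (PadicInt.norm_le_one _) (not_lt.1 fun h => hder ?_)
      exact (PadicInt.norm_int_lt_one_iff_dvd _).1 h
    rw [h1, one_pow]
    exact (PadicInt.norm_int_lt_one_iff_dvd _).2 hla)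
  have ht2 : aeval (t : ℚ_[l]) G = 0 := by
    have h1 := congrArg (algebraMap ℤ_[l] ℚ_[l]) ht
    rw [map_zero] at h1
    rw [← h1]
    exact aeval_algebraMap_apply ℚ_[l] t G
  have ht3 : aeval (t : ℚ_[l]) f = 0 := by
    have h1 : aeval (t : ℚ_[l]) (G.map (Int.castRingHom ℚ)) = 0 := by
      rw [← ht2]
      exact aeval_map_algebraMap ℚ (t : ℚ_[l]) G
    rw [hG, map_mul, aeval_C] at h1
    rcases mul_eq_zero.1 h1 with h | h
    · exact absurd ((map_eq_zero_iff _ (algebraMap ℚ ℚ_[l]).injective).1 h) hDQ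
    · exact h
  exact ⟨(pb.lift (t : ℚ_[l]) ht3 : L →ₐ[ℚ] ℚ_[l]).toRingHom⟩

end Pool.Agent.Y160.T2
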