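import Pool.Agent.Y160.T2.Good

/-!
# A positive proportion of good parameters over a finite field: the count
-/

set_option autoImplicit false
set_option linter.all false

open Polynomial

namespace Pool.Agent.Y160.T2

open Pool.Agent.Y160.FT Pool.Agent.Y232.FT2
open Pool.Agent.Y160.SL (IsResidue IsBinom)

theorem cast_ne {F : Type} [Field F] [Fintype F] {N : ℕ} (hN : N.Prime)
    (hNk : N ∣ Fintype.card F - 1) : (N : F) ≠ 0 := by
  intro h0
  obtain ⟨c, hc⟩ := CharP.exists F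
  have hcp : c.Prime := CharP.char_is_prime F c
  rw [CharP.cast_eq_zero_iff F c] at h0
  have h1 : c = N := (Nat.prime_dvd_prime_iff_eq hcp hN).1 h0
  have h2 : c ∣ Fintype.card F := by
    obtain ⟨n, -, hn⟩ := FiniteField.card F c
    rw [hn]
    exact dvd_pow_self _ n.pos.ne'
  rw [h1] at h2
  have h3 : 0 < Fintype.card F := Fintype.card_pos
  have h4 : N ∣ 1 := (Nat.dvd_add_right hNk).1 (by
    rw [Nat.sub_add_cancel h3]; exact h2)
  exact hN.one_lt.ne' (Nat.dvd_one.1 h4)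

theorem ab_ex {q m : ℕ} (hq0 : 0 < q) (hqm : q.Coprime m) : ∃ a b : ℕ, b * q = a * m + 1 := by
  obtain ⟨x, -, hx⟩ := Nat.exists_mul_mod_eq_of_coprime (k := q) (n := m) (q - 1) hqm.symm
    hq0.ne'
  have h1 : x * m ≡ q - 1 [MOD q] := by rw [mul_comm]; exact hx
  have h2 : x * m + 1 ≡ q - 1 + 1 [MOD q] := h1.add_right 1
  rw [Nat.sub_add_cancel hq0] at h2
  obtain ⟨b, hb⟩ := Nat.modEq_zero_iff_dvd.1 (h2.trans (by rw [Nat.modEq_zero_iff_dvd]))
  exact ⟨x, b, by rw [hb, mul_comm]⟩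

theorem good_count {p q s m N : ℕ} (hp : p.Prime) (hq : q = p ^ (s + 1)) (hpm : p.Coprime m)
    (hm : 0 < m) (hN : N.Prime) (hN2 : N ≠ 2) (hpN : p ≠ N) : ∃ B D : ℕ, 0 < D ∧
    ∀ (F : Type) [Field F] [Fintype F], B < Fintype.card F → p ∣ Fintype.card F - 1 →
      N ∣ Fintype.card F - 1 → ∀ z : F, ZData p m z → ∀ S : Finset (Fin 4 → F),
      (∀ v : Fin 4 → F, v 3 ≠ 0 → GoodF p q m N z (v 0) (v 1) (v 2) → v ∈ S) →
      Fintype.card F ^ 4 ≤ D * S.card := by
  classical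
  obtain ⟨M1, h1⟩ := cnt p m hp
  obtain ⟨M2, h2⟩ := cnt N (m + m) hN
  have hq0 : 0 < q := by rw [hq]; exact Nat.pow_pos hp.pos
  have hpq : p ∣ q := by rw [hq]; exact dvd_pow_self _ (Nat.succ_ne_zero _)
  have hqm : q.Coprime m := by rw [hq]; exact Nat.Coprime.pow_left _ hpm
  obtain ⟨a, b, hab⟩ := ab_ex hq0 hqm
  refine ⟨M1 + M2 + 2, 4 * (2 * N ^ (m + m) * (m * (2 * p ^ m))), ?_, ?_⟩
  · have := Nat.pow_pos (n := m + m) hN.pos
    have := Nat.pow_pos (n := m) hp.pos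
    positivity
  intro F _ _ hB hpF hNF z hz S hS
  obtain ⟨g, hg0, hg⟩ := nonpow_ex (k := F) hp (by rwa [Nat.card_eq_fintype_card])
  obtain ⟨g', hg0', hg'⟩ := nonpow_ex (k := F) hN (by rwa [Nat.card_eq_fintype_card])
  have hz0 : z ≠ 0 := hz.prim.ne_zero hm.ne'
  have hinj : Function.Injective fun i : Fin m => z ^ (i : ℕ) := by
    intro i j hij
    exact Fin.ext (hz.prim.pow_inj i.2 j.2 hij)
  -- the set of the `κ`
  set K : Finset F := Finset.univ.filter fun κ => ∀ i : Fin m, R p (κ - z ^ (i : ℕ))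
    (if (i : ℕ) = 0 then g else 1) with hK
  have hKc : Fintype.card F ≤ 2 * p ^ m * K.card := by
    refine h1 F hpF (by omega) (fun i : Fin m => z ^ (i : ℕ)) (fun i => if (i : ℕ) = 0 then g else 1)
      hinj ?_ K fun x hx => ?_
    · intro i; split_ifs
      · exact hg0
      · exact one_ne_zero
    · rw [hK, Finset.mem_filter]
      exact ⟨Finset.mem_univ _, hx⟩
  have hKi : ∀ κ ∈ K, ∀ i : ℕ, i < m → i ≠ 0 → R p (κ - z ^ i) 1 := by
    intro κ hκ i hi hi0
    rw [hK, Finset.mem_filter] at hκ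
    have := hκ.2 ⟨i, hi⟩
    dsimp only at this
    rwa [if_neg hi0] at this
  have hKg : ∀ κ ∈ K, R p (κ - 1) g := by
    intro κ hκ
    rw [hK, Finset.mem_filter] at hκ
    have := hκ.2 ⟨0, hm⟩
    dsimp only at this
    rwa [if_pos rfl, pow_zero] at this
  have hK1 : ∀ κ ∈ K, ¬ R p (κ - 1) 1 := fun κ hκ h' => hg (R_trans (R_symm (hKg κ hκ)) h')
  have hK10 : ∀ κ ∈ K, κ - 1 ≠ 0 := by
    intro κ hκ
    obtain ⟨y, hy, hy'⟩ := hKg κ hκ
    rw [hy']; exact mul_ne_zero hg0 (pow_ne_zero _ hy)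
  have hK0 : ∀ κ ∈ K, κ ≠ 0 := by
    rintro κ hκ rfl
    apply hK1 0 hκ
    rw [zero_sub]
    exact hz.neg
  have hKw : ∀ κ ∈ K, 1 - κ ^ m ≠ 0 := by
    intro κ hκ
    obtain ⟨y, hy, hy'⟩ := one_sub_pow hm hz (hKi κ hκ)
    rw [hy']; exact mul_ne_zero (hK10 κ hκ) (pow_ne_zero _ hy)
  -- the pairs `(ρ, β)`
  set Φ : F × F → F × F := fun y => ((1 - y.1 ^ m) ^ a * y.2 ^ q, (1 - y.1 ^ m) ^ b * y.2 ^ m) with hΦ
  set P : Finset (F × F) := (K ×ˢ (Finset.univ.erase (0 : F))).image Φ with hP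
  have hPc : K.card * (Fintype.card F - 1) ≤ m * P.card := by
    have h3 := Finset.card_le_mul_card_image (f := Φ) (K ×ˢ (Finset.univ.erase (0 : F))) m
      (fun x _ => pair_fibre hm hab K hKw x)
    rw [Finset.card_product, Finset.card_erase_of_mem (Finset.mem_univ _), Finset.card_univ] at h3
    exact h3
  -- the set of the `τ`
  set T : F × F → Finset F := fun x => Finset.univ.filter fun τ => GoodF p q m N z τ x.1 x.2 with hT
  have hTc : ∀ x ∈ P, Fintype.card F ≤ 2 * N ^ (m + m) * (T x).card := by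
    intro x hx
    obtain ⟨⟨κ, t⟩, hy, hyx⟩ := Finset.mem_image.1 hx
    rw [Finset.mem_product, Finset.mem_erase] at hy
    obtain ⟨hκ, ht0, -⟩ := hy
    have ht0 : t ≠ 0 := ht0
    have hκ : κ ∈ K := hκ
    have e1 : x.1 = (1 - κ ^ m) ^ a * t ^ q := by rw [← hyx]
    have e2 : x.2 = (1 - κ ^ m) ^ b * t ^ m := by rw [← hyx]
    have hw := hKw κ hκ
    have hρ0 : x.1 ≠ 0 := by rw [e1]; exact mul_ne_zero (pow_ne_zero _ hw) (pow_ne_zero _ ht0)
    have hβ0 : x.2 ≠ 0 := by rw [e2]; exact mul_ne_zero (pow_ne_zero _ hw) (pow_ne_zero _ ht0)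
    have hβq : x.2 ^ q = x.1 ^ m * (1 - κ ^ m) := by
      rw [e1, e2, mul_pow, mul_pow, ← pow_mul, ← pow_mul, ← pow_mul, ← pow_mul, hab, pow_succ,
        mul_comm m q]
      ring
    have hres := resid hp hpq hpm hm hz (hK0 κ hκ) (hKi κ hκ) (hK1 κ hκ) (hK10 κ hκ) hρ0 hβ0 hβq
    refine h2 F hNF (by omega) (Fin.append (fun i : Fin m => x.1 * z ^ (i : ℕ))
      (fun i : Fin m => κ * x.1 * z ^ (i : ℕ))) (fun _ => g') ?_ (fun _ => hg0') (T x) ?_
    · rw [Fin.append_injective_iff]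
      refine ⟨hres.injρ, hres.injγ, fun i j hij => ?_⟩
      have h3 := congrArg (eval (κ * x.1 * z ^ (j : ℕ))) hres.prod
      rw [eval_add, eval_C, eval_prod, eval_prod] at h3
      rw [Finset.prod_eq_zero (Finset.mem_univ j) (by rw [eval_sub, eval_X, eval_C, sub_self]),
        Finset.prod_eq_zero (Finset.mem_univ i) (by
          rw [eval_sub, eval_X, eval_C, ← hij, sub_self]), zero_add] at h3
      exact pow_ne_zero q hβ0 h3.symm
    · intro τ hτ
      rw [hT]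
      rw [Finset.mem_filter]
      refine ⟨Finset.mem_univ _, κ * x.1, mul_ne_zero (hK0 κ hκ) hρ0, hρ0, hres, fun e => ?_⟩
      refine binom_of hN hN2 ((Nat.coprime_primes hp hN).2 hpN) (cast_ne hN hNF) ?_ ?_ e
      · intro i b
        have h3 := hτ (Fin.castAdd m i)
        rw [Fin.append_left] at h3
        exact not_pow hN2 hN hg' hg0' h3 b
      · intro i b
        have h3 := hτ (Fin.natAdd m i)
        rw [Fin.append_right] at h3
        exact not_pow hN2 hN hg' hg0' h3 b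
  -- the quadruples
  set W : Finset (Σ _ : F × F, F × F) :=
    P.sigma fun x => (T x) ×ˢ (Finset.univ.erase (0 : F)) with hW
  have hWS : W.card ≤ S.card := by
    refine Finset.card_le_card_of_injOn (fun w => ![w.2.1, w.1.1, w.1.2, w.2.2]) ?_ ?_
    · rintro ⟨⟨ρ, β⟩, τ, c⟩ hw
      rw [Finset.mem_coe, hW, Finset.mem_sigma, Finset.mem_product, Finset.mem_erase] at hw
      obtain ⟨-, hτ, hc, -⟩ := hw
      rw [Finset.mem_coe]
      refine hS _ hc ?_
      have hτ' : τ ∈ T (ρ, β) := hτ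
      rw [hT, Finset.mem_filter] at hτ'
      exact hτ'.2
    · rintro ⟨⟨ρ, β⟩, τ, c⟩ _ ⟨⟨ρ', β'⟩, τ', c'⟩ _ h
      have h0 := congrFun h 0
      have h1 := congrFun h 1
      have h2 := congrFun h 2
      have h3 := congrFun h 3
      have h0 : τ = τ' := h0
      have h1 : ρ = ρ' := h1
      have h2 : β = β' := h2
      have h3 : c = c' := h3
      subst h0 h1 h2 h3
      rfl
  have hWc : P.card * (Fintype.card F * (Fintype.card F - 1)) ≤ 2 * N ^ (m + m) * W.card := by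
    rw [hW, Finset.card_sigma, Finset.mul_sum]
    rw [← smul_eq_mul, ← Finset.sum_const]
    refine Finset.sum_le_sum fun x hx => ?_
    rw [Finset.card_product, Finset.card_erase_of_mem (Finset.mem_univ _), Finset.card_univ,
      ← mul_assoc]
    exact Nat.mul_le_mul (hTc x hx) le_rfl
  set f := Fintype.card F with hf
  have hf2 : f ≤ 2 * (f - 1) := by omega
  calc f ^ 4 = (f * f) * (f * f) := by ring
    _ ≤ (f * (2 * (f - 1))) * (f * (2 * (f - 1))) := by
        refine Nat.mul_le_mul (Nat.mul_le_mul le_rfl hf2) (Nat.mul_le_mul le_rfl hf2)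
    _ = 4 * ((f * (f - 1)) * (f * (f - 1))) := by ring
    _ ≤ 4 * (((2 * p ^ m * K.card) * (f - 1)) * (f * (f - 1))) := by
        refine Nat.mul_le_mul le_rfl (Nat.mul_le_mul (Nat.mul_le_mul hKc le_rfl) le_rfl)
    _ = 4 * ((2 * p ^ m) * ((K.card * (f - 1)) * (f * (f - 1)))) := by ring
    _ ≤ 4 * ((2 * p ^ m) * ((m * P.card) * (f * (f - 1)))) := by
        refine Nat.mul_le_mul le_rfl (Nat.mul_le_mul le_rfl (Nat.mul_le_mul hPc le_rfl))
    _ = 4 * ((m * (2 * p ^ m)) * (P.card * (f * (f - 1)))) := by ring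
    _ ≤ 4 * ((m * (2 * p ^ m)) * (2 * N ^ (m + m) * W.card)) := by
        refine Nat.mul_le_mul le_rfl (Nat.mul_le_mul le_rfl hWc)
    _ ≤ 4 * ((m * (2 * p ^ m)) * (2 * N ^ (m + m) * S.card)) := by
        refine Nat.mul_le_mul le_rfl (Nat.mul_le_mul le_rfl (Nat.mul_le_mul le_rfl hWS))
    _ = 4 * (2 * N ^ (m + m) * (m * (2 * p ^ m))) * S.card := by ring

end Pool.Agent.Y160.T2
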