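import Mathlib

/-!
# Integer vectors which avoid a positive proportion of the residue classes for infinitely many primes
-/

set_option autoImplicit false
set_option linter.all false

open Filter Topology

namespace Pool.Agent.Y160.T2

theorem count_box {n Q : ℕ} (hQ : 0 < Q) (A : Finset (Fin n → ZMod Q)) (H : ℕ)
    (S : Set (Fin n → ℤ)) (hS : ∀ v ∈ S, (∀ i, |v i| ≤ (H : ℤ)) ∧ (fun i => ((v i : ℤ) : ZMod Q)) ∈ A) :
    S.ncard ≤ A.card * (2 * H / Q + 1) ^ n := by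
  classical
  set T : Finset ((Fin n → ZMod Q) × (Fin n → ℕ)) :=
    A ×ˢ Fintype.piFinset (fun _ => Finset.range (2 * H / Q + 1)) with hT
  have hTc : T.card = A.card * (2 * H / Q + 1) ^ n := by
    rw [hT, Finset.card_product, Fintype.card_piFinset]
    simp
  rw [← hTc, ← Set.ncard_coe_finset]
  refine Set.ncard_le_ncard_of_injOn
    (fun v : Fin n → ℤ => ((fun i => ((v i : ℤ) : ZMod Q)), (fun i => (v i + H).toNat / Q))) ?_ ?_
    (Finset.finite_toSet T)
  · intro v hv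
    obtain ⟨h1, h2⟩ := hS v hv
    rw [Finset.mem_coe, hT, Finset.mem_product, Fintype.mem_piFinset]
    refine ⟨h2, fun i => ?_⟩
    rw [Finset.mem_range]
    have h3 := abs_le.1 (h1 i)
    have h4 : (v i + H).toNat ≤ 2 * H := by omega
    exact Nat.lt_succ_of_le (Nat.div_le_div_right h4)
  · intro v hv v' hv' h
    rw [Prod.mk.injEq] at h
    obtain ⟨h1, h2⟩ := h
    funext i
    have h3 := congrFun h1 i
    have h4 := congrFun h2 i
    have a1 := abs_le.1 ((hS v hv).1 i)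
    have a2 := abs_le.1 ((hS v' hv').1 i)
    obtain ⟨x, hx⟩ : ∃ x : ℕ, v i + H = x := ⟨(v i + H).toNat, by omega⟩
    obtain ⟨y, hy⟩ : ∃ y : ℕ, v' i + H = y := ⟨(v' i + H).toNat, by omega⟩
    rw [hx, hy, Int.toNat_natCast, Int.toNat_natCast] at h4
    have h5 : ((x : ℕ) : ZMod Q) = ((y : ℕ) : ZMod Q) := by
      have e1 : ((x : ℤ) : ZMod Q) = ((v i + H : ℤ) : ZMod Q) := by rw [hx]
      have e2 : ((y : ℤ) : ZMod Q) = ((v' i + H : ℤ) : ZMod Q) := by rw [hy]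
      rw [Int.cast_natCast] at e1 e2
      rw [e1, e2, Int.cast_add, Int.cast_add, h3]
    have h6 : x % Q = y % Q := (ZMod.natCast_eq_natCast_iff' _ _ _).1 h5
    have h7 : x = y := by
      rw [← Nat.div_add_mod x Q, ← Nat.div_add_mod y Q, h4, h6]
    have h8 : v i + H = v' i + H := by rw [hx, hy, h7]
    omega

/-- The residue classes modulo a product of primes. -/
theorem residues {n D : ℕ} (hD : 0 < D) (Bad : Set (Fin n → ℤ))
    (h : ∀ B : ℕ, ∃ P : ℕ, B < P ∧ P.Prime ∧ ∃ G : Finset (Fin n → ZMod P), P ^ n ≤ D * G.card ∧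
      ∀ v ∈ Bad, (fun i => ((v i : ℤ) : ZMod P)) ∉ G) (r : ℕ) :
    ∃ (Q : ℕ) (A : Finset (Fin n → ZMod Q)), 0 < Q ∧ A.card * D ^ r ≤ (D - 1) ^ r * Q ^ n ∧
      ∀ v ∈ Bad, (fun i => ((v i : ℤ) : ZMod Q)) ∈ A := by
  classical
  induction r with
  | zero =>
    refine ⟨1, Finset.univ, one_pos, ?_, fun v _ => Finset.mem_univ _⟩
    rw [Finset.card_univ]
    simp
  | succ r ih =>
    obtain ⟨Q, A, hQ, hA, hmem⟩ := ih
    obtain ⟨P, hPQ, hP, G, hG, hbad⟩ := h Q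
    have hcop : Q.Coprime P := by
      refine ((Nat.Prime.coprime_iff_not_dvd hP).2 fun hd => ?_).symm
      have := Nat.le_of_dvd hQ hd
      omega
    haveI : NeZero P := ⟨hP.ne_zero⟩
    haveI : NeZero Q := ⟨hQ.ne'⟩
    set e := ZMod.chineseRemainder hcop with he
    refine ⟨Q * P, (A ×ˢ Gᶜ).image fun x i => e.symm (x.1 i, x.2 i), Nat.mul_pos hQ hP.pos, ?_, ?_⟩
    · have h1 : ((A ×ˢ Gᶜ).image fun x i => e.symm (x.1 i, x.2 i)).card ≤ A.card * Gᶜ.card := by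
        refine Finset.card_image_le.trans ?_
        rw [Finset.card_product]
      have h2 : Gᶜ.card = P ^ n - G.card := by
        rw [Finset.card_compl]
        simp
      have h3 : G.card ≤ P ^ n := by
        have := Finset.card_le_univ G
        simpa using this
      have h4 : Gᶜ.card * D ≤ (D - 1) * P ^ n := by
        rw [h2]
        obtain ⟨d, rfl⟩ : ∃ d, D = d + 1 := ⟨D - 1, by omega⟩
        rw [Nat.add_sub_cancel]
        rw [Nat.sub_mul]
        have h5 : P ^ n * (d + 1) = d * P ^ n + P ^ n := by ring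
        have h6 : (d + 1) * G.card = G.card * (d + 1) := by ring
        omega
      calc _ * D ^ (r + 1) ≤ (A.card * Gᶜ.card) * D ^ (r + 1) := Nat.mul_le_mul h1 le_rfl
        _ = (A.card * D ^ r) * (Gᶜ.card * D) := by ring
        _ ≤ ((D - 1) ^ r * Q ^ n) * ((D - 1) * P ^ n) := Nat.mul_le_mul hA h4
        _ = (D - 1) ^ (r + 1) * (Q * P) ^ n := by ring
    · intro v hv
      refine Finset.mem_image.2 ⟨((fun i => ((v i : ℤ) : ZMod Q)), fun i => ((v i : ℤ) : ZMod P)), ?_, ?_⟩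
      · rw [Finset.mem_product, Finset.mem_compl]
        exact ⟨hmem v hv, hbad v hv⟩
      · funext i
        dsimp only
        have h1 : e ((v i : ℤ) : ZMod (Q * P)) = (((v i : ℤ) : ZMod Q), ((v i : ℤ) : ZMod P)) := by
          rw [map_intCast]
          rfl
        rw [← h1, RingEquiv.symm_apply_apply]

/-- Vectors which avoid a positive proportion of the classes modulo infinitely many primes have
density zero. -/
theorem sieve {n D : ℕ} (hD : 0 < D) (Bad : Set (Fin n → ℤ))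
    (h : ∀ B : ℕ, ∃ P : ℕ, B < P ∧ P.Prime ∧ ∃ G : Finset (Fin n → ZMod P), P ^ n ≤ D * G.card ∧
      ∀ v ∈ Bad, (fun i => ((v i : ℤ) : ZMod P)) ∉ G) :
    Tendsto (fun H : ℕ => (({v : Fin n → ℤ | (∀ i, |v i| ≤ (H : ℤ)) ∧ v ∈ Bad}.ncard : ℕ) : ℝ) /
      (2 * (H : ℝ) + 1) ^ n) atTop (𝓝 0) := by
  rw [Metric.tendsto_atTop]
  intro ε hε
  have hDR : (0 : ℝ) < D := by exact_mod_cast hD
  set x : ℝ := ((D : ℝ) - 1) / D with hx
  have hD1 : (1 : ℝ) ≤ D := by exact_mod_cast hD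
  have hx0 : 0 ≤ x := div_nonneg (by linarith) hDR.le
  have hx1 : x < 1 := by rw [hx, div_lt_one hDR]; linarith
  obtain ⟨r, hr⟩ := exists_pow_lt_of_lt_one (half_pos hε) hx1
  obtain ⟨Q, A, hQ, hA, hmem⟩ := residues hD Bad h r
  have hQR : (0 : ℝ) < Q := by exact_mod_cast hQ
  -- the ratio of the boxes
  have hlim : Tendsto (fun H : ℕ => ((2 * (H : ℝ) + Q) / (2 * (H : ℝ) + 1)) ^ n) atTop (𝓝 1) := by
    have h1 : Tendsto (fun H : ℕ => (1 : ℝ) + ((Q : ℝ) - 1) / (2 * (H : ℝ) + 1)) atTop (𝓝 1) := by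
      have h2 : Tendsto (fun H : ℕ => 2 * (H : ℝ) + 1) atTop atTop := by
        refine tendsto_atTop_add_const_right _ _ ?_
        exact Tendsto.const_mul_atTop two_pos tendsto_natCast_atTop_atTop
      have h3 := (tendsto_const_nhds (x := (Q : ℝ) - 1)).div_atTop h2
      simpa using (tendsto_const_nhds (x := (1 : ℝ))).add h3
    have h4 : (fun H : ℕ => ((2 * (H : ℝ) + Q) / (2 * (H : ℝ) + 1)) ^ n) =
        fun H : ℕ => ((1 : ℝ) + ((Q : ℝ) - 1) / (2 * (H : ℝ) + 1)) ^ n := by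
      funext H
      congr 1
      have h5 : (2 * (H : ℝ) + 1) ≠ 0 := by positivity
      field_simp
      ring
    rw [h4]
    simpa using h1.pow n
  have hev := hlim.eventually (gt_mem_nhds (one_lt_two))
  rw [eventually_atTop] at hev
  obtain ⟨H₀, hH₀⟩ := hev
  refine ⟨H₀, fun H hH => ?_⟩
  rw [Real.dist_eq, sub_zero, abs_of_nonneg (by positivity)]
  have h1 := count_box hQ A H {v : Fin n → ℤ | (∀ i, |v i| ≤ (H : ℤ)) ∧ v ∈ Bad}
    (fun v hv => ⟨hv.1, hmem v hv.2⟩)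
  have h2 : (({v : Fin n → ℤ | (∀ i, |v i| ≤ (H : ℤ)) ∧ v ∈ Bad}.ncard : ℕ) : ℝ) ≤
      A.card * ((2 * (H : ℝ) + Q) / Q) ^ n := by
    have h3 : (((A.card * (2 * H / Q + 1) ^ n : ℕ)) : ℝ) ≤ A.card * ((2 * (H : ℝ) + Q) / Q) ^ n := by
      push_cast
      refine mul_le_mul_of_nonneg_left (pow_le_pow_left₀ (by positivity) ?_ n) (by positivity)
      have h4 : (((2 * H / Q : ℕ)) : ℝ) ≤ (2 * (H : ℝ)) / Q := by
        have := Nat.cast_div_le (α := ℝ) (m := 2 * H) (n := Q)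
        push_cast at this
        exact this
      rw [add_div, div_self hQR.ne']
      linarith
    exact (by exact_mod_cast h1 : (({v : Fin n → ℤ | (∀ i, |v i| ≤ (H : ℤ)) ∧ v ∈ Bad}.ncard : ℕ) : ℝ) ≤
      (((A.card * (2 * H / Q + 1) ^ n : ℕ)) : ℝ)).trans h3
  have h5 : (A.card : ℝ) ≤ x ^ r * (Q : ℝ) ^ n := by
    have h6 : ((A.card * D ^ r : ℕ) : ℝ) ≤ (((D - 1) ^ r * Q ^ n : ℕ) : ℝ) := by exact_mod_cast hA
    push_cast [Nat.cast_sub hD] at h6
    rw [hx, div_pow, div_mul_eq_mul_div, le_div_iff₀ (by positivity)]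
    exact h6
  have h7 : (A.card : ℝ) * ((2 * (H : ℝ) + Q) / Q) ^ n ≤ x ^ r * (2 * (H : ℝ) + Q) ^ n := by
    calc (A.card : ℝ) * ((2 * (H : ℝ) + Q) / Q) ^ n ≤
        (x ^ r * (Q : ℝ) ^ n) * ((2 * (H : ℝ) + Q) / Q) ^ n :=
          mul_le_mul_of_nonneg_right h5 (by positivity)
      _ = x ^ r * (2 * (H : ℝ) + Q) ^ n := by
          have h9 : (Q : ℝ) ^ n ≠ 0 := pow_ne_zero _ hQR.ne'
          rw [div_pow (2 * (H : ℝ) + Q), mul_assoc, mul_div_assoc', mul_comm ((Q : ℝ) ^ n),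
            mul_div_assoc, div_self h9, mul_one]
  have h8 : (0 : ℝ) < (2 * (H : ℝ) + 1) ^ n := by positivity
  calc _ / (2 * (H : ℝ) + 1) ^ n ≤ (x ^ r * (2 * (H : ℝ) + Q) ^ n) / (2 * (H : ℝ) + 1) ^ n :=
        div_le_div_of_nonneg_right (h2.trans h7) h8.le
    _ = x ^ r * ((2 * (H : ℝ) + Q) / (2 * (H : ℝ) + 1)) ^ n := by
        rw [div_pow (2 * (H : ℝ) + Q), mul_div_assoc]
    _ ≤ x ^ r * 2 := mul_le_mul_of_nonneg_left (hH₀ H hH).le (by positivity)
    _ < ε := by linarith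

end Pool.Agent.Y160.T2
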