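import Pool.Agent.Y160.T2.Point2
import Pool.Agent.Y160.T2.Sieve
import Pool.Agent.Y160.T2.GoodC

/-!
# Almost all integer parameters
-/

set_option autoImplicit false
set_option linter.all false

open Polynomial Filter Topology

namespace Pool.Agent.Y160.T2

open Pool.Agent.Y160.SL (Works)

/-- The conclusions hold for `100%` of the quadruples of integers. -/
theorem every {p s m N : ℕ} (hp : p.Prime) (hm : 0 < m) (hcop : p.Coprime m) (hN : N.Prime)
    (hN2 : N ≠ 2) (hNp : N ≠ p) (k : Type) [Field k] [NumberField k] {ζ z : k}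
    (hζ : IsPrimitiveRoot ζ (p ^ (s + 1))) (hz : IsPrimitiveRoot z m) :
    Tendsto (fun H : ℕ => (({v : Fin 4 → ℤ | (∀ i, |v i| ≤ (H : ℤ)) ∧
      ¬ Works p (p ^ (s + 1)) m N k (v 0) (v 1) (v 2) (v 3)}.ncard : ℕ) : ℝ) /
        (2 * (H : ℝ) + 1) ^ 4) atTop (𝓝 0) := by
  classical
  obtain ⟨B₁, D, hD, hcount⟩ := good_count (s := s) hp rfl hcop hm hN hN2 hNp.symm
  refine sieve hD {v : Fin 4 → ℤ | ¬ Works p (p ^ (s + 1)) m N k (v 0) (v 1) (v 2) (v 3)}
    fun B => ?_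
  obtain ⟨P, hP, σ, z', ζ', hPB, hz', hζ', hζb, hzb, hpP, hNP⟩ :=
    place_ex (s := s) hp rfl hm hN k hζ hz (B + B₁ + p ^ (s + 1) * m * N)
  have hPp : P.Prime := hP.out
  refine ⟨P, by omega, hPp, Finset.univ.filter fun v : Fin 4 → ZMod P => v 3 ≠ 0 ∧
    GoodF p (p ^ (s + 1)) m N (PadicInt.toZMod z') (v 0) (v 1) (v 2), ?_, ?_⟩
  · have h1 := hcount (ZMod P) (by rw [ZMod.card]; omega) (by rwa [ZMod.card])
      (by rwa [ZMod.card]) (PadicInt.toZMod z') hzb (Finset.univ.filter fun v : Fin 4 → ZMod P =>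
        v 3 ≠ 0 ∧ GoodF p (p ^ (s + 1)) m N (PadicInt.toZMod z') (v 0) (v 1) (v 2))
      (fun v h3 hG => Finset.mem_filter.2 ⟨Finset.mem_univ _, h3, hG⟩)
    rwa [ZMod.card] at h1
  · intro v hv hmem
    apply hv
    obtain ⟨-, h3, hG⟩ := Finset.mem_filter.1 hmem
    refine point hp rfl hm hcop hζ hz σ hz' hζ' hζb hzb ?_ h3 hG
    intro h0
    rw [ZMod.natCast_eq_zero_iff] at h0
    have h1 : 0 < p ^ (s + 1) * m * N :=
      Nat.mul_pos (Nat.mul_pos (Nat.pow_pos hp.pos) hm) hN.pos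
    have := Nat.le_of_dvd h1 h0
    omega

end Pool.Agent.Y160.T2
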