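import Pool.Agent.Y160.T2.Good
import Pool.Agent.Y160.SL.FourF

/-!
# Extensions of degree prime to `p N`
-/

set_option autoImplicit false
set_option linter.all false

open Polynomial

namespace Pool.Agent.Y160.T2

open Pool.Agent.Y232.FT2 (R)
open Pool.Agent.Y160.SL (IsResidue IsBinom)

variable {k k' : Type} [Field k] [Field k'] [Algebra k k'] [FiniteDimensional k k']

/-- Powers, and the norm. -/
theorem pow_of_norm {N : ℕ} (hN0 : N ≠ 0) (hr : N.Coprime (Module.finrank k k')) {a : k}
    (ha : a ≠ 0) {b : k'} (h : b ^ N = algebraMap k k' a) : ∃ c : k, c ^ N = a := by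
  have h1 : (Algebra.norm k b) ^ N = a ^ (Module.finrank k k') := by
    rw [← map_pow, h, Algebra.norm_algebraMap]
  have hbez := Nat.gcd_eq_gcd_ab N (Module.finrank k k')
  generalize Module.finrank k k' = r at *
  have hb : Algebra.norm k b ≠ 0 := by
    intro h0
    rw [h0, zero_pow hN0] at h1
    exact pow_ne_zero _ ha h1.symm
  rw [Nat.coprime_iff_gcd_eq_one.1 hr, Nat.cast_one] at hbez
  refine ⟨(Algebra.norm k b) ^ (N.gcdB r) * a ^ (N.gcdA r), ?_⟩
  rw [mul_pow, ← zpow_natCast, ← zpow_natCast, ← zpow_mul, ← zpow_mul, mul_comm (N.gcdB r),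
    zpow_mul, zpow_natCast, h1, ← zpow_natCast a r, ← zpow_mul, ← zpow_add₀ ha]
  have e : (r : ℤ) * N.gcdB r + N.gcdA r * N = 1 := by rw [hbez]; ring
  rw [e, zpow_one]

theorem norm_ne {y : k'} (hy : y ≠ 0) : Algebra.norm k y ≠ 0 := Algebra.norm_ne_zero_iff.2 hy

/-- The conditions on the residue classes over an extension of degree prime to `p`. -/
theorem residue_ext {p q m : ℕ} (hp : p.Prime) (hr : p.Coprime (Module.finrank k k'))
    {ρ γ : Fin m → k} {β : k} (h : IsResidue p q ρ γ β) :
    IsResidue p q (fun i => algebraMap k k' (ρ i)) (fun i => algebraMap k k' (γ i))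
      (algebraMap k k' β) := by
  classical
  have hinj : Function.Injective (algebraMap k k') := (algebraMap k k').injective
  have canc : ∀ a b : ℕ, Module.finrank k k' * a ≡ Module.finrank k k' * b [MOD p] →
      a ≡ b [MOD p] := fun a b hab => Nat.ModEq.cancel_left_of_coprime hr hab
  refine ⟨(_root_.map_ne_zero _).2 h.ne, ?_, fun i j hij => h.injρ (hinj hij),
    fun i j hij => h.injγ (hinj hij), ?_, ?_, ?_⟩
  · have h1 := congrArg (Polynomial.map (algebraMap k k')) h.prod
    rw [Polynomial.map_add, Polynomial.map_prod, Polynomial.map_prod, Polynomial.map_C, map_pow] at h1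
    simpa only [Polynomial.map_sub, Polynomial.map_X, Polynomial.map_C] using h1
  · intro c e hc H i j
    refine canc _ _ (h.same (Algebra.norm k c) (fun i => Module.finrank k k' * e i) (norm_ne hc) ?_
      i j)
    intro i
    obtain ⟨y, hy, hy'⟩ := H i
    refine ⟨Algebra.norm k y, norm_ne hy, ?_⟩
    have h1 := congrArg (Algebra.norm k) hy'
    rw [map_mul, map_mul, map_prod, map_pow, map_pow, map_prod] at h1
    simp only [map_pow, ← map_sub, Algebra.norm_algebraMap] at h1
    simp only [pow_mul]
    rw [← Finset.prod_pow]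
    exact h1
  · intro c e hc H i j
    refine canc _ _ (h.rows (Algebra.norm k c) (fun i => Module.finrank k k' * e i) (norm_ne hc) ?_
      i j)
    intro i
    obtain ⟨y, hy'⟩ := H i
    refine ⟨Algebra.norm k y, ?_⟩
    have h1 := congrArg (Algebra.norm k) hy'
    rw [map_mul, map_prod, map_pow] at h1
    simp only [map_pow, ← map_sub, Algebra.norm_algebraMap] at h1
    simp only [pow_mul]
    exact h1
  · intro c e hc H i j
    refine canc _ _ (h.cols (Algebra.norm k c) (fun i => Module.finrank k k' * e i) (norm_ne hc) ?_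
      i j)
    intro i
    obtain ⟨y, hy'⟩ := H i
    refine ⟨Algebra.norm k y, ?_⟩
    have h1 := congrArg (Algebra.norm k) hy'
    rw [map_mul, map_prod, map_pow] at h1
    simp only [map_pow, ← map_sub, Algebra.norm_algebraMap] at h1
    simp only [pow_mul]
    exact h1

/-- The binomials over an extension of degree prime to `N`. -/
theorem binom_ext {p m N : ℕ} (hN : N.Prime) (hN2 : N ≠ 2) (hpN : p.Coprime N)
    (hr : N.Coprime (Module.finrank k k')) {ρ γ : Fin m → k} {τ : k} (h : IsBinom p N ρ γ τ) (e : ℕ) :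
    IsBinom p (N ^ e) (fun i => algebraMap k k' (ρ i)) (fun i => algebraMap k k' (γ i))
      (algebraMap k k' τ) := by
  have hnot : ∀ a : k, Irreducible (X ^ N + C (τ - a) : k[X]) → ∀ b : k', b ^ N ≠
      algebraMap k k' a - algebraMap k k' τ := by
    intro a hirr b hb
    have h3 : (X ^ N + C (τ - a) : k[X]) = X ^ N - C (a - τ) := by
      rw [show τ - a = -(a - τ) by ring, C_neg, ← sub_eq_add_neg]
    rw [h3] at hirr
    have ha : a - τ ≠ 0 := by
      intro h0
      rw [h0, C_0, sub_zero] at hirr
      exact not_irreducible_pow hN.one_lt.ne' hirr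
    rw [← map_sub] at hb
    obtain ⟨c, hc⟩ := pow_of_norm hN.ne_zero hr ha hb
    exact pow_ne_of_irreducible_X_pow_sub_C hirr (dvd_refl N) hN.one_lt.ne' c hc
  exact binom_of hN hN2 hpN (by
    have h1 := h.ne
    intro h0
    apply h1
    apply (algebraMap k k').injective
    rw [map_natCast, h0, map_zero]) (fun i => hnot _ (h.irr i).1) (fun i => hnot _ (h.irr i).2) e

end Pool.Agent.Y160.T2
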