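import Pool.Agent.Y160.T2.FinProp
import Pool.Agent.Y160.T2.GoodD

/-!
# A positive proportion of the quadruples over finite fields: the theorem
-/

set_option autoImplicit false
set_option linter.all false

open Polynomial

namespace Pool.Agent.Y160.T2

open Pool.Agent.Y160.SL (GoodQuad RootData)

/-- At least the proportion `1 / (16 m p ^ m N ^ (2 m))` of the quadruples is good over all extensions of
degree prime to `p N`. -/
theorem fin_prop {p s m N : ℕ} (hp : p.Prime) (hm : 0 < m) (hcop : p.Coprime m) (hN : N.Prime)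
    (hN2 : N ≠ 2) (hNp : N ≠ p) : ∃ B : ℕ, ∀ (F : Type) [Field F] [Finite F] (ζ z : F),
    B < Nat.card F → N ∣ Nat.card F - 1 → IsPrimitiveRoot ζ (p ^ (s + 1)) → RootData p m z →
      Nat.card F ^ 4 ≤ 16 * m * p ^ m * N ^ (2 * m) *
        {v : Fin 4 → F | ∀ (F' : Type) [Field F'] [Algebra F F'] [FiniteDimensional F F'],
          (p * N).Coprime (Module.finrank F F') →
            GoodQuad p (p ^ (s + 1)) m N F' (fun i => algebraMap F F' (v i))}.ncard := by
  classical
  obtain ⟨B, hB⟩ := good_count_explicit (s := s) hp rfl hcop hm hN hN2 hNp.symm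
  refine ⟨B, ?_⟩
  intro F _ _ ζ z hcard hNF hζ hz
  haveI : Fintype F := Fintype.ofFinite F
  rw [Nat.card_eq_fintype_card] at hcard hNF ⊢
  have hζ0 : ζ ≠ 0 := hζ.ne_zero (Nat.pow_pos hp.pos).ne'
  have hpF : p ∣ Fintype.card F - 1 := by
    have h1 : p ^ (s + 1) ∣ Fintype.card F - 1 := by
      rw [hζ.eq_orderOf]
      exact orderOf_dvd_of_pow_eq_one (FiniteField.pow_card_sub_one_eq_one ζ hζ0)
    exact (dvd_pow_self p (Nat.succ_ne_zero s)).trans h1
  set A : Set (Fin 4 → F) := {v : Fin 4 → F | ∀ (F' : Type) [Field F'] [Algebra F F']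
    [FiniteDimensional F F'], (p * N).Coprime (Module.finrank F F') →
      GoodQuad p (p ^ (s + 1)) m N F' (fun i => algebraMap F F' (v i))} with hA
  have hfin : A.Finite := Set.toFinite _
  rw [Set.ncard_eq_toFinset_card A hfin]
  refine hB F hcard hpF hNF z (ZData_of hp hz hm) _ fun v h3 hG => ?_
  rw [Set.Finite.mem_toFinset, hA]
  intro F' _ _ _ hr
  exact quad_of hp rfl hm hcop hN hN2 hNp hr hζ hz.prim h3 hG

end Pool.Agent.Y160.T2
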