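import Pool.Agent.Y160.T2.Ex
import Pool.Agent.Y160.T2.CntN

/-!
# A positive proportion of good parameters over a finite field
-/

set_option autoImplicit false
set_option linter.all false

open Polynomial

namespace Pool.Agent.Y160.T2

open Pool.Agent.Y160.FT Pool.Agent.Y232.FT2
open Pool.Agent.Y160.SL (IsResidue IsBinom)

/-- `z` is a primitive `m`-th root of unity, and `z ^ n`, `-1`, `z ^ i - z ^ j` are `p`-th powers. -/
structure ZData (p m : ℕ) {F : Type} [Field F] (z : F) : Prop where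
  prim : IsPrimitiveRoot z m
  pow : ∀ n : ℕ, R p (z ^ n) 1
  neg : R p (-1 : F) 1
  sub : ∀ i j : ℕ, z ^ i ≠ z ^ j → R p (z ^ i - z ^ j) 1

/-- The good parameters. -/
def GoodF {F : Type} [Field F] (p q m N : ℕ) (z τ ρ β : F) : Prop :=
  ∃ γ : F, γ ≠ 0 ∧ ρ ≠ 0 ∧ IsResidue p q (fun i : Fin m => ρ * z ^ (i : ℕ))
    (fun i : Fin m => γ * z ^ (i : ℕ)) β ∧
    ∀ e : ℕ, IsBinom p (N ^ e) (fun i : Fin m => ρ * z ^ (i : ℕ))
      (fun i : Fin m => γ * z ^ (i : ℕ)) τ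

section field

variable {F : Type} [Field F]

theorem prod_z {m : ℕ} (hm : 0 < m) {A : Type} [CommRing A] [IsDomain A] {z : A}
    (hz : IsPrimitiveRoot z m) (α : A) :
    ∏ i : Fin m, (X - C (α * z ^ (i : ℕ))) = X ^ m - C (α ^ m) := by
  rw [X_pow_sub_C_eq_prod hz (α := α) (a := α ^ m) hm rfl, ← Fin.prod_univ_eq_prod_range
    (fun i => X - C (z ^ i * α)) m]
  refine Finset.prod_congr rfl fun i _ => ?_
  rw [mul_comm]

/-- The class of `1 - κ ^ m`. -/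
theorem one_sub_pow {p m : ℕ} (hm : 0 < m) {z κ : F} (hz : ZData p m z)
    (hκi : ∀ i : ℕ, i < m → i ≠ 0 → R p (κ - z ^ i) 1) : R p (1 - κ ^ m) (κ - 1) := by
  have e1 := X_pow_sub_C_eq_prod hz.prim (α := (1 : F)) (a := 1) hm (one_pow m)
  have e2 : κ ^ m - 1 = ∏ i ∈ Finset.range m, (κ - z ^ i) := by
    have := congrArg (Polynomial.eval κ) e1
    rw [eval_sub, eval_pow, eval_X, eval_C, eval_prod] at this
    rw [this]
    refine Finset.prod_congr rfl fun i _ => ?_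
    rw [eval_sub, eval_X, eval_C, mul_one]
  have e3 : 1 - κ ^ m = -1 * ∏ i ∈ Finset.range m, (κ - z ^ i) := by rw [← e2]; ring
  rw [e3]
  obtain ⟨m', rfl⟩ : ∃ m', m = m' + 1 := ⟨m - 1, by omega⟩
  rw [Finset.prod_range_succ']
  have e4 : R p (∏ i ∈ Finset.range m', (κ - z ^ (i + 1))) (∏ i ∈ Finset.range m', (1 : F)) :=
    R_prod _ _ _ fun i hi => hκi (i + 1) (by have := Finset.mem_range.1 hi; omega)
      (Nat.succ_ne_zero _)
  rw [Finset.prod_const_one] at e4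
  have e5 := R_mul hz.neg (R_mul e4 (R_refl (κ - z ^ 0)))
  rw [one_mul, one_mul, pow_zero] at e5
  rwa [pow_zero]

/-- The conditions on the residue classes. -/
theorem resid {p q m : ℕ} (hp : p.Prime) (hpq : p ∣ q) (hpm : p.Coprime m) (hm : 0 < m) {z : F}
    (hz : ZData p m z) {κ ρ0 β : F} (hκ0 : κ ≠ 0) (hκi : ∀ i : ℕ, i < m → i ≠ 0 → R p (κ - z ^ i) 1)
    (hκ1 : ¬ R p (κ - 1) 1) (hκ10 : κ - 1 ≠ 0) (hρ00 : ρ0 ≠ 0) (hβ0 : β ≠ 0)
    (hβq : β ^ q = ρ0 ^ m * (1 - κ ^ m)) :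
    IsResidue p q (fun i : Fin m => ρ0 * z ^ (i : ℕ)) (fun i : Fin m => κ * ρ0 * z ^ (i : ℕ)) β := by
  classical
  have hz1 : z ^ m = 1 := hz.prim.pow_eq_one
  have hw := one_sub_pow hm hz hκi
  have hρ1 : ¬ R p ρ0 1 := by
    intro h'
    apply hκ1
    have h1 : R p (ρ0 ^ m * (1 - κ ^ m)) (1 ^ m * (κ - 1)) := R_mul (R_pow h' m) hw
    rw [one_pow, one_mul, ← hβq] at h1
    obtain ⟨r, hr⟩ := hpq
    have h2 : R p (β ^ q) 1 := ⟨β ^ r, pow_ne_zero _ hβ0, by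
      rw [one_mul, ← pow_mul, hr, mul_comm]⟩
    exact R_trans (R_symm h1) h2
  have hinj : Function.Injective fun i : Fin m => z ^ (i : ℕ) := by
    intro i j hij
    exact Fin.ext (hz.prim.pow_inj i.2 j.2 hij)
  refine ⟨hβ0, ?_, ?_, ?_, ?_, ?_, ?_⟩
  · rw [prod_z hm hz.prim, prod_z hm hz.prim, hβq, sub_add, ← C_sub]
    congr 2
    ring
  · intro i j hij
    exact hinj (mul_left_cancel₀ hρ00 hij)
  · intro i j hij
    exact hinj (mul_left_cancel₀ (mul_ne_zero hκ0 hρ00) hij)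
  · intro c e _ H i j
    refine cond_redei hp hpm hρ00 hρ1 (fun i => ρ0 * z ^ (i : ℕ)) ?_ c e H i j
    intro i j hij
    rw [← mul_sub]
    have h1 := R_mul (R_refl (ℓ := p) ρ0) (hz.sub i j fun h' => hij (hinj h'))
    rwa [mul_one] at h1
  · intro c e hc H i j
    refine cond_mat hp hρ00 hκ10 hκ1 (fun j i => κ * ρ0 * z ^ (j : ℕ) - ρ0 * z ^ (i : ℕ)) ?_ c hc e
      H i j
    intro j i
    exact mat_rel ρ0 hz1 hz.pow hκi i j
  · intro c e hc H i j
    refine cond_mat hp hρ00 hκ10 hκ1 (fun i j => ρ0 * z ^ (i : ℕ) - κ * ρ0 * z ^ (j : ℕ)) ?_ c hc e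
      H i j
    intro i j
    have h1 := R_mul hz.neg (mat_rel ρ0 hz1 hz.pow hκi i j)
    have h2 : -1 * (κ * ρ0 * z ^ (j : ℕ) - ρ0 * z ^ (i : ℕ)) =
      ρ0 * z ^ (i : ℕ) - κ * ρ0 * z ^ (j : ℕ) := by ring
    rw [h2, one_mul] at h1
    have h3 : (if j = i then κ - 1 else 1) = (if i = j then κ - 1 else 1) := by
      simp only [eq_comm]
    rw [h3]
    exact h1

/-- The binomials. -/
theorem binom_of {p m N : ℕ} (hN : N.Prime) (hN2 : N ≠ 2) (hpN : p.Coprime N) (hNF : (N : F) ≠ 0)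
    {ρ γ : Fin m → F} {τ : F} (h1 : ∀ i b, b ^ N ≠ ρ i - τ) (h2 : ∀ i b, b ^ N ≠ γ i - τ) (e : ℕ) :
    IsBinom p (N ^ e) ρ γ τ := by
  refine ⟨Nat.Coprime.pow_right _ hpN, ?_, fun i => ⟨?_, ?_⟩⟩
  · rw [Nat.cast_pow]
    exact pow_ne_zero _ hNF
  · have h3 : (X ^ (N ^ e) + C (τ - ρ i) : F[X]) = X ^ (N ^ e) - C (ρ i - τ) := by
      rw [show τ - ρ i = -(ρ i - τ) by ring, C_neg, ← sub_eq_add_neg]
    rw [h3]
    exact X_pow_sub_C_irreducible_of_prime_pow hN hN2 e fun b => h1 i b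
  · have h3 : (X ^ (N ^ e) + C (τ - γ i) : F[X]) = X ^ (N ^ e) - C (γ i - τ) := by
      rw [show τ - γ i = -(γ i - τ) by ring, C_neg, ← sub_eq_add_neg]
    rw [h3]
    exact X_pow_sub_C_irreducible_of_prime_pow hN hN2 e fun b => h2 i b

/-- An element in the class of a non-power is not a power, up to the sign. -/
theorem not_pow {N : ℕ} (hN : N ≠ 2) (hNp : N.Prime) {g τ a : F} (hg : ¬ R N g 1) (hg0 : g ≠ 0)
    (h : R N (τ - a) g) (b : F) : b ^ N ≠ a - τ := by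
  intro hb
  apply hg
  have hodd : Odd N := hNp.odd_of_ne_two hN
  have h1 : (-b) ^ N = τ - a := by rw [hodd.neg_pow, hb]; ring
  have hb0 : -b ≠ 0 := by
    intro h0
    rw [h0, zero_pow hNp.ne_zero] at h1
    obtain ⟨y, hy, hy'⟩ := h
    rw [← h1] at hy'
    exact mul_ne_zero hg0 (pow_ne_zero _ hy) hy'.symm
  refine R_trans (R_symm h) ?_
  rw [← h1]
  exact ⟨-b, hb0, by rw [one_mul]⟩

end field

section count

variable {F : Type} [Field F] [Fintype F]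

/-- The map from `(κ, t)` to `(ρ, β)`. -/
theorem pair_fibre [DecidableEq F] {q m a b : ℕ} (hm : 0 < m) (hab : b * q = a * m + 1) (K : Finset F)
    (hK : ∀ κ ∈ K, 1 - κ ^ m ≠ 0) (x : F × F) :
    ((K ×ˢ (Finset.univ.erase (0 : F))).filter fun y : F × F =>
      ((1 - y.1 ^ m) ^ a * y.2 ^ q, (1 - y.1 ^ m) ^ b * y.2 ^ m) = x).card ≤ m := by
  classical
  rcases Finset.eq_empty_or_nonempty ((K ×ˢ (Finset.univ.erase (0 : F))).filter fun y : F × F =>
      ((1 - y.1 ^ m) ^ a * y.2 ^ q, (1 - y.1 ^ m) ^ b * y.2 ^ m) = x) with h0 | ⟨y₀, hy₀⟩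
  · rw [h0]; simp
  rw [Finset.mem_filter, Finset.mem_product, Finset.mem_erase] at hy₀
  obtain ⟨⟨hy₀K, hy₀0, -⟩, hy₀x⟩ := hy₀
  -- the `m`-th power of `κ` is determined
  have hrel : ∀ y : F × F, y.2 ≠ 0 → 1 - y.1 ^ m ≠ 0 →
      ((1 - y.1 ^ m) ^ a * y.2 ^ q, (1 - y.1 ^ m) ^ b * y.2 ^ m) = x →
      x.2 ^ q = x.1 ^ m * (1 - y.1 ^ m) ∧ x.1 ≠ 0 := by
    intro y hy0 hyw hyx
    rw [← hyx]
    refine ⟨?_, mul_ne_zero (pow_ne_zero _ hyw) (pow_ne_zero _ hy0)⟩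
    show ((1 - y.1 ^ m) ^ b * y.2 ^ m) ^ q = ((1 - y.1 ^ m) ^ a * y.2 ^ q) ^ m * (1 - y.1 ^ m)
    rw [mul_pow, mul_pow, ← pow_mul, ← pow_mul, ← pow_mul, ← pow_mul, hab, pow_succ, mul_comm m q]
    ring
  obtain ⟨r₀, hx0⟩ := hrel y₀ hy₀0 (hK _ hy₀K) hy₀x
  -- the projection to `κ` is injective with image in the roots
  have himg : ((K ×ˢ (Finset.univ.erase (0 : F))).filter fun y : F × F =>
      ((1 - y.1 ^ m) ^ a * y.2 ^ q, (1 - y.1 ^ m) ^ b * y.2 ^ m) = x).card ≤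
      (Polynomial.nthRoots m (y₀.1 ^ m)).toFinset.card := by
    refine Finset.card_le_card_of_injOn (fun y => y.1) ?_ ?_
    · intro y hy
      rw [Finset.mem_coe, Finset.mem_filter, Finset.mem_product, Finset.mem_erase] at hy
      obtain ⟨⟨hyK, hy0, -⟩, hyx⟩ := hy
      obtain ⟨r, -⟩ := hrel y hy0 (hK _ hyK) hyx
      rw [Finset.mem_coe, Multiset.mem_toFinset, Polynomial.mem_nthRoots hm]
      rw [r₀] at r
      have h1 := mul_left_cancel₀ (pow_ne_zero m hx0) r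
      linear_combination h1
    · intro y hy y' hy' hyy
      rw [Finset.mem_coe, Finset.mem_filter, Finset.mem_product, Finset.mem_erase] at hy hy'
      obtain ⟨⟨hyK, hy0, -⟩, hyx⟩ := hy
      obtain ⟨⟨hyK', hy0', -⟩, hyx'⟩ := hy'
      have hyy : y.1 = y'.1 := hyy
      rw [← hyx'] at hyx
      rw [Prod.mk.injEq, hyy] at hyx
      have hw := hK _ hyK'
      have h1 := mul_left_cancel₀ (pow_ne_zero a hw) hyx.1
      have h2 := mul_left_cancel₀ (pow_ne_zero b hw) hyx.2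
      have h3 : (y.2 / y'.2) ^ q = 1 := by
        rw [div_pow, h1, div_self (pow_ne_zero _ hy0')]
      have h4 : (y.2 / y'.2) ^ m = 1 := by
        rw [div_pow, h2, div_self (pow_ne_zero _ hy0')]
      have h5 : y.2 / y'.2 = 1 := by
        have h6 : (y.2 / y'.2) ^ (b * q) = (y.2 / y'.2) ^ (a * m) * (y.2 / y'.2) := by
          rw [hab, pow_succ]
        rw [mul_comm b q, pow_mul, h3, one_pow, mul_comm a m, pow_mul, h4, one_pow, one_mul] at h6
        exact h6.symm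
      rw [div_eq_one_iff_eq hy0'] at h5
      exact Prod.ext hyy h5
  refine himg.trans ((Multiset.toFinset_card_le _).trans (Polynomial.card_nthRoots m _))

end count

end Pool.Agent.Y160.T2
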