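import Pool.Agent.Y160.T2.Emb
import Pool.Agent.Y160.T2.Good

/-!
# Places of a number field with given residue data
-/

set_option autoImplicit false
set_option linter.all false

open Polynomial

namespace Pool.Agent.Y160.T2

open Pool.Agent.Y232.FT2 (R)

theorem to_int {L : Type} [Field L] {P : ℕ} [Fact P.Prime] (σ : L →+* ℚ_[P]) {x : L}
    (hx : IsIntegral ℤ x) : ∃ y : ℤ_[P], (y : ℚ_[P]) = σ x := by
  have h2 : IsIntegral ℤ (σ x) := hx.map σ.toIntAlgHom
  have h3 : IsIntegral ℤ_[P] (σ x) := h2.tower_top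
  obtain ⟨y, hy⟩ := IsIntegrallyClosed.isIntegral_iff.1 h3
  exact ⟨y, hy⟩

theorem prim_red {A F : Type} [CommRing A] [IsDomain A] [Field F] (φ : A →+* F) {n : ℕ}
    (hn : (n : F) ≠ 0) {x : A} (hx : IsPrimitiveRoot x n) : IsPrimitiveRoot (φ x) n := by
  haveI : NeZero (n : F) := ⟨hn⟩
  haveI : NeZero (n : A) := ⟨fun h0 => hn (by rw [← map_natCast φ, h0, map_zero])⟩
  rw [← isRoot_cyclotomic_iff] at hx ⊢
  rw [IsRoot.def] at hx ⊢
  have h1 : cyclotomic n F = (cyclotomic n A).map φ := by rw [map_cyclotomic]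
  rw [h1, eval_map_apply, hx, map_zero]

theorem place_ex {p q s m N : ℕ} (hp : p.Prime) (hq : q = p ^ (s + 1)) (hm : 0 < m) (hN : N.Prime)
    (k : Type) [Field k] [NumberField k] {ζ z : k} (hζ : IsPrimitiveRoot ζ q)
    (hz : IsPrimitiveRoot z m) (B : ℕ) :
    ∃ (P : ℕ) (_ : Fact P.Prime) (σ : k →+* ℚ_[P]) (z' ζ' : ℤ_[P]), B < P ∧
      (z' : ℚ_[P]) = σ z ∧ (ζ' : ℚ_[P]) = σ ζ ∧ IsPrimitiveRoot (PadicInt.toZMod ζ') q ∧
      ZData p m (PadicInt.toZMod z') ∧ p ∣ P - 1 ∧ N ∣ P - 1 := by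
  classical
  have hq0 : 0 < q := by rw [hq]; exact Nat.pow_pos hp.pos
  let Ω := AlgebraicClosure k
  have hroot : ∀ s : k, ∃ y : Ω, y ^ p = algebraMap k Ω s := fun s =>
    IsAlgClosed.exists_pow_nat_eq _ hp.pos
  choose y hy using hroot
  haveI : NeZero ((N : ℕ) : Ω) := ⟨by exact_mod_cast hN.ne_zero⟩
  obtain ⟨ξ, hξ⟩ := IsAlgClosed.exists_root (cyclotomic N Ω) (by
    rw [degree_cyclotomic]
    have := Nat.totient_pos.2 hN.pos
    exact_mod_cast this.ne')
  have hξ' : IsPrimitiveRoot ξ N := isRoot_cyclotomic_iff.1 hξ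
  set S : Finset k := insert (-1) (insert z ((Finset.range m ×ˢ Finset.range m).image
    fun x => z ^ x.1 - z ^ x.2)) with hS
  set T : Set Ω := insert ξ ((S.image y : Finset Ω) : Set Ω) with hT
  have hTfin : T.Finite := (Finset.finite_toSet _).insert _
  let L := IntermediateField.adjoin k T
  haveI : FiniteDimensional k L := by
    haveI : Finite T := hTfin
    exact IntermediateField.finiteDimensional_adjoin fun x _ =>
      (AlgebraicClosure.isAlgebraic k).isAlgebraic x |>.isIntegral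
  haveI : CharZero L := charZero_of_injective_algebraMap (algebraMap k L).injective
  haveI : FiniteDimensional ℚ L := Module.Finite.trans k L
  haveI : NumberField L := {}
  obtain ⟨P, hP, hPB, ⟨σ⟩⟩ := embed_ex L (B + q + m + N)
  have hcast : ∀ n : ℕ, 0 < n → n < P → (n : ZMod P) ≠ 0 := by
    intro n hn hnP h0
    rw [ZMod.natCast_eq_zero_iff] at h0
    have := Nat.le_of_dvd hn h0
    omega
  have hqi : IsIntegral ℤ ζ := IsIntegral.of_pow hq0 (by rw [hζ.pow_eq_one]; exact isIntegral_one)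
  have hzi : IsIntegral ℤ z := IsIntegral.of_pow hm (by rw [hz.pow_eq_one]; exact isIntegral_one)
  have hmapi : ∀ {x : k}, IsIntegral ℤ x → IsIntegral ℤ (algebraMap k L x) := fun hx =>
    hx.map ((algebraMap k L).toIntAlgHom)
  obtain ⟨z', hz'⟩ := to_int (σ.comp (algebraMap k L)) hzi
  obtain ⟨ζ', hζ'⟩ := to_int (σ.comp (algebraMap k L)) hqi
  have hinj : Function.Injective (σ.comp (algebraMap k L)) := RingHom.injective _
  have hcoe : Function.Injective (PadicInt.Coe.ringHom (p := P)) := fun a b h => PadicInt.ext h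
  have hz'p : IsPrimitiveRoot z' m := by
    have h1 : IsPrimitiveRoot ((σ.comp (algebraMap k L)) z) m := hz.map_of_injective hinj
    rw [← hz'] at h1
    exact IsPrimitiveRoot.of_map_of_injective (f := PadicInt.Coe.ringHom (p := P)) h1 hcoe
  have hζ'p : IsPrimitiveRoot ζ' q := by
    have h1 : IsPrimitiveRoot ((σ.comp (algebraMap k L)) ζ) q := hζ.map_of_injective hinj
    rw [← hζ'] at h1
    exact IsPrimitiveRoot.of_map_of_injective (f := PadicInt.Coe.ringHom (p := P)) h1 hcoe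
  have hzb : IsPrimitiveRoot (PadicInt.toZMod z') m :=
    prim_red _ (hcast m hm (by omega)) hz'p
  have hζb : IsPrimitiveRoot (PadicInt.toZMod ζ') q :=
    prim_red _ (hcast q hq0 (by omega)) hζ'p
  -- the `p`-th roots
  have key : ∀ (s : k) (s' : ℤ_[P]), s ∈ S → (s' : ℚ_[P]) = (σ.comp (algebraMap k L)) s →
      IsIntegral ℤ s → ∃ w : ℤ_[P], w ^ p = s' := by
    intro s s' hs hs' hsi
    have hyL : y s ∈ L := IntermediateField.subset_adjoin k T (by
      rw [hT]
      refine Set.mem_insert_of_mem _ ?_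
      rw [Finset.mem_coe]
      exact Finset.mem_image_of_mem y hs)
    have e1 : (⟨y s, hyL⟩ : L) ^ p = algebraMap k L s := by
      apply Subtype.ext
      exact hy s
    obtain ⟨w, hw⟩ := to_int σ (x := (⟨y s, hyL⟩ : L)) (IsIntegral.of_pow hp.pos (by
      rw [e1]; exact hmapi hsi))
    refine ⟨w, hcoe ?_⟩
    show ((w ^ p : ℤ_[P]) : ℚ_[P]) = (s' : ℚ_[P])
    rw [hs', PadicInt.coe_pow, hw, ← map_pow, e1]
    rfl
  have key2 : ∀ (s : k) (s' : ℤ_[P]), s ∈ S → (s' : ℚ_[P]) = (σ.comp (algebraMap k L)) s →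
      IsIntegral ℤ s → PadicInt.toZMod s' ≠ 0 → R p (PadicInt.toZMod s') 1 := by
    intro s s' hs hs' hsi h0
    obtain ⟨w, hw⟩ := key s s' hs hs' hsi
    have e1 : PadicInt.toZMod w ^ p = PadicInt.toZMod s' := by rw [← map_pow, hw]
    refine ⟨PadicInt.toZMod w, ?_, by rw [one_mul, e1]⟩
    intro h1
    rw [h1, zero_pow hp.ne_zero] at e1
    exact h0 e1.symm
  have hzS : z ∈ S := Finset.mem_insert_of_mem (Finset.mem_insert_self _ _)
  have hz0 : PadicInt.toZMod z' ≠ 0 := hzb.ne_zero hm.ne'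
  have hZ : ZData p m (PadicInt.toZMod z') := by
    refine ⟨hzb, ?_, ?_, ?_⟩
    · intro n
      obtain ⟨w, hw0, hw⟩ := key2 z z' hzS hz' hzi hz0
      refine ⟨w ^ n, pow_ne_zero _ hw0, ?_⟩
      rw [hw, one_mul, one_mul, ← pow_mul, ← pow_mul, mul_comm]
    · have h1 := key2 (-1) (-1) (Finset.mem_insert_self _ _) (by
        rw [map_neg, map_one, PadicInt.coe_neg, PadicInt.coe_one]) isIntegral_one.neg (by
        rw [map_neg, map_one]; exact neg_ne_zero.2 one_ne_zero)
      rwa [map_neg, map_one] at h1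
    · intro i j hij
      have hmod : ∀ n : ℕ, PadicInt.toZMod z' ^ n = PadicInt.toZMod z' ^ (n % m) := by
        intro n
        conv_lhs => rw [← Nat.mod_add_div n m]
        rw [pow_add, pow_mul, hzb.pow_eq_one, one_pow, mul_one]
      rw [hmod i, hmod j] at hij ⊢
      have h1 := key2 (z ^ (i % m) - z ^ (j % m)) (z' ^ (i % m) - z' ^ (j % m)) (by
        refine Finset.mem_insert_of_mem (Finset.mem_insert_of_mem (Finset.mem_image.2
          ⟨(i % m, j % m), ?_, rfl⟩))
        rw [Finset.mem_product, Finset.mem_range, Finset.mem_range]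
        exact ⟨Nat.mod_lt _ hm, Nat.mod_lt _ hm⟩) (by
        rw [map_sub, map_pow, map_pow, PadicInt.coe_sub, PadicInt.coe_pow, PadicInt.coe_pow, hz'])
        ((hzi.pow _).sub (hzi.pow _)) (by
        rw [map_sub, map_pow, map_pow]
        exact sub_ne_zero.2 hij)
      rwa [map_sub, map_pow, map_pow] at h1
  -- the residue characteristic
  have hpq : p ∣ q := by rw [hq]; exact dvd_pow_self _ (Nat.succ_ne_zero _)
  have hqP : q ∣ P - 1 := hζb.dvd_of_pow_eq_one _ (ZMod.pow_card_sub_one_eq_one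
    (hζb.ne_zero hq0.ne'))
  have hNP : N ∣ P - 1 := by
    have hξL : ξ ∈ L := IntermediateField.subset_adjoin k T (Set.mem_insert _ _)
    have h1 : IsPrimitiveRoot (⟨ξ, hξL⟩ : L) N := by
      refine IsPrimitiveRoot.of_map_of_injective (f := algebraMap L Ω) ?_ (algebraMap L Ω).injective
      exact hξ'
    obtain ⟨x, hx⟩ := to_int σ (x := (⟨ξ, hξL⟩ : L)) (IsIntegral.of_pow hN.pos (by
      rw [h1.pow_eq_one]; exact isIntegral_one))
    have h2 : IsPrimitiveRoot x N := by
      have h3 : IsPrimitiveRoot (σ (⟨ξ, hξL⟩ : L)) N := h1.map_of_injective σ.injective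
      rw [← hx] at h3
      exact IsPrimitiveRoot.of_map_of_injective (f := PadicInt.Coe.ringHom (p := P)) h3 hcoe
    have h3 : IsPrimitiveRoot (PadicInt.toZMod x) N := prim_red _ (hcast N hN.pos (by omega)) h2
    exact h3.dvd_of_pow_eq_one _ (ZMod.pow_card_sub_one_eq_one (h3.ne_zero hN.ne_zero))
  exact ⟨P, hP, σ.comp (algebraMap k L), z', ζ', by omega, hz', hζ', hζb, hZ, hpq.trans hqP, hNP⟩

end Pool.Agent.Y160.T2
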