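import Pool.Agent.Y160.T2.Main
import Pool.Agent.Y160.T2.Place
import Pool.Agent.Y160.SL.Four

/-!
# Integers with good residues
-/

set_option autoImplicit false
set_option linter.all false

open Polynomial

namespace Pool.Agent.Y160.T2

open Pool.Agent.TH115.GD (IsTower)
open Pool.Agent.Y232.FT2 (R)
open Pool.Agent.Y160.SL (IsResidue IsBinom IsReduction finSurf surfOver four overField surf FourConcl
  Works Concl ShaBasis binPoly SepMod)

/-- The product formula. -/
theorem prodM {E : Type} [Field E] {m : ℕ} (hm : 0 < m) {z : E} (hz : IsPrimitiveRoot z m)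
    (M : ℕ) (τ ρ : E) : ∏ i : Fin m, (X ^ M + C (τ - ρ * z ^ (i : ℕ)) : E[X]) =
      (X ^ M + C τ) ^ m - C (ρ ^ m) := by
  have h2 := congrArg (fun f : E[X] => f.comp (X ^ M + C τ)) (prod_z hm hz ρ)
  simp only [Polynomial.prod_comp, sub_comp, X_comp, C_comp, pow_comp] at h2
  rw [← h2]
  refine Finset.prod_congr rfl fun i _ => ?_
  rw [C_sub]
  ring

theorem binPoly_map {A : Type} [CommRing A] (m M : ℕ) (τ ρ : ℤ) :
    (binPoly m M τ ρ).map (Int.castRingHom A) =
      ((X ^ M + C (τ : A)) ^ m - C ((ρ : A) ^ m)) := by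
  unfold binPoly
  rw [Polynomial.map_sub, Polynomial.map_pow, Polynomial.map_add, Polynomial.map_pow,
    Polynomial.map_X, Polynomial.map_C, Polynomial.map_C, eq_intCast, eq_intCast, Int.cast_pow]

/-- The surface in terms of the products. -/
theorem four_eq {E : Type} [Field E] {m : ℕ} (hm : 0 < m) {z : E} (hz : IsPrimitiveRoot z m)
    (q M n : ℕ) (τ ρ β c : ℤ) :
    finSurf q M n (fun i : Fin m => (ρ : E) * z ^ (i : ℕ)) (τ : E) (β : E) (c : E) =
      (four q m M n τ ρ β c).map (mapRingHom (Int.castRingHom E)) := by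
  have h1 := prodM hm hz M (τ : E) (ρ : E)
  unfold finSurf four surf
  rw [h1]
  have e1 : (((binPoly m M τ ρ).map C : ℤ[X][X]).map (mapRingHom (Int.castRingHom E))) =
      ((X ^ M + C (τ : E)) ^ m - C ((ρ : E) ^ m)).map C := by
    rw [← binPoly_map, Polynomial.map_map, Polynomial.map_map]
    congr 1
    refine RingHom.ext fun x => ?_
    rw [RingHom.comp_apply, RingHom.comp_apply, Polynomial.coe_mapRingHom, Polynomial.map_C]
  have e2 : ((C β + C c * X ^ n : ℤ[X])).map (Int.castRingHom E) =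
      C (β : E) + C (c : E) * X ^ n := by
    rw [Polynomial.map_add, Polynomial.map_mul, Polynomial.map_pow, Polynomial.map_X,
      Polynomial.map_C, Polynomial.map_C, eq_intCast, eq_intCast]
  rw [Polynomial.map_add, e1, Polynomial.map_C, Polynomial.coe_mapRingHom, Polynomial.map_pow, e2]

/-- Products of distinct irreducible binomials are separable over perfect fields. -/
theorem sep_prod {F : Type} [Field F] [PerfectField F] {m M : ℕ} (a : Fin m → F)
    (ha : Function.Injective a) (h : ∀ i, Irreducible (X ^ M + C (a i) : F[X])) :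
    (∏ i, (X ^ M + C (a i) : F[X])).Separable := by
  refine separable_prod ?_ fun i => PerfectField.separable_of_irreducible (h i)
  intro i j hij
  show IsCoprime (X ^ M + C (a i) : F[X]) (X ^ M + C (a j))
  have h1 : a i - a j ≠ 0 := sub_ne_zero.2 fun h => hij (ha h)
  refine ⟨C (a i - a j)⁻¹, -C (a i - a j)⁻¹, ?_⟩
  have h2 : (C (a i - a j)⁻¹ * C (a i - a j) : F[X]) = 1 := by
    rw [← C_mul, inv_mul_cancel₀ h1, C_1]
  rw [C_sub] at h2
  linear_combination h2

section padic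

variable {P : ℕ} [hP : Fact P.Prime]

/-- The valuation ring of a subfield of the field of the `P`-adic numbers. -/
noncomputable def vs {k' : Type} [Field k'] (σ : k' →+* ℚ_[P]) : ValuationSubring k' :=
  { (PadicInt.subring P).comap σ with
    mem_or_inv_mem' := by
      intro x
      show ‖σ x‖ ≤ 1 ∨ ‖σ x⁻¹‖ ≤ 1
      rcases le_total ‖σ x‖ 1 with h | h
      · exact Or.inl h
      · right
        rw [map_inv₀, norm_inv]
        exact inv_le_one_of_one_le₀ h }

theorem mem_vs {k' : Type} [Field k'] (σ : k' →+* ℚ_[P]) (x : k') : x ∈ vs σ ↔ ‖σ x‖ ≤ 1 := Iff.rfl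

/-- The map to the `P`-adic integers. -/
noncomputable def toZ {k' : Type} [Field k'] (σ : k' →+* ℚ_[P]) : vs σ →+* ℤ_[P] :=
  (σ.comp (vs σ).subtype).codRestrict (PadicInt.subring P) fun x => (mem_vs σ x.1).1 x.2

theorem toZ_coe {k' : Type} [Field k'] (σ : k' →+* ℚ_[P]) (x : vs σ) :
    ((toZ σ x : ℤ_[P]) : ℚ_[P]) = σ x := rfl

/-- The map to the residue field. -/
noncomputable def res {k' : Type} [Field k'] (σ : k' →+* ℚ_[P]) : vs σ →+* ZMod P :=
  PadicInt.toZMod.comp (toZ σ)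

theorem res_local {k' : Type} [Field k'] (σ : k' →+* ℚ_[P]) : IsLocalHom (res σ) := by
  refine ⟨fun x hx => ?_⟩
  have h1 : PadicInt.toZMod (toZ σ x) ≠ 0 := hx.ne_zero
  have h2 : IsUnit (toZ σ x) := by
    by_contra h
    apply h1
    have h3 : toZ σ x ∈ RingHom.ker (PadicInt.toZMod (p := P)) := by
      rw [PadicInt.ker_toZMod]
      exact (IsLocalRing.mem_maximalIdeal _).2 h
    exact h3
  have h3 : ‖σ (x : k')‖ = 1 := by
    rw [← toZ_coe]
    exact PadicInt.isUnit_iff.1 h2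
  have hx0 : (x : k') ≠ 0 := by
    intro h
    rw [h, map_zero, norm_zero] at h3
    exact zero_ne_one h3
  have h4 : ((x : k'))⁻¹ ∈ vs σ := by
    rw [mem_vs, map_inv₀, norm_inv, h3, inv_one]
  refine IsUnit.of_mul_eq_one (⟨(x : k')⁻¹, h4⟩ : vs σ) ?_
  apply Subtype.ext
  exact mul_inv_cancel₀ hx0

theorem hensel_root {m : ℕ} (hm0 : (m : ZMod P) ≠ 0) (s : ℤ) {γ : ZMod P} (hγ : γ ≠ 0)
    (h : γ ^ m = (s : ZMod P)) : ∃ g : ℤ_[P], g ^ m = (s : ℤ_[P]) ∧ PadicInt.toZMod g = γ := by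
  obtain ⟨a, ha⟩ := ZMod.intCast_surjective γ
  have hto : ∀ x : ℤ, PadicInt.toZMod ((x : ℤ) : ℤ_[P]) = (x : ZMod P) := fun x => map_intCast _ x
  have hnorm : ∀ y : ℤ_[P], ‖y‖ < 1 ↔ PadicInt.toZMod y = 0 := by
    intro y
    rw [← PadicInt.mem_nonunits, ← RingHom.mem_ker, PadicInt.ker_toZMod]
    rfl
  have hd : ∀ g : ℤ_[P], PadicInt.toZMod g = γ → ‖(m : ℤ_[P]) * g ^ (m - 1)‖ = 1 := by
    intro g hg
    refine le_antisymm (PadicInt.norm_le_one _) (not_lt.1 fun h0 => ?_)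
    rw [hnorm, map_mul, map_natCast, map_pow, hg] at h0
    exact mul_ne_zero hm0 (pow_ne_zero _ hγ) h0
  obtain ⟨g, hg, hg2, -⟩ := hensels_lemma (p := P) (R := ℤ) (F := X ^ m - C s)
    (a := ((a : ℤ) : ℤ_[P])) (by
    rw [derivative_sub, derivative_X_pow, derivative_C, sub_zero]
    have e1 : aeval ((a : ℤ) : ℤ_[P]) (C (m : ℤ) * X ^ (m - 1) : ℤ[X]) =
        (m : ℤ_[P]) * ((a : ℤ) : ℤ_[P]) ^ (m - 1) := by
      rw [map_mul, map_pow, aeval_X, aeval_C]
      simp
    have e2 : aeval ((a : ℤ) : ℤ_[P]) (X ^ m - C s : ℤ[X]) = ((a : ℤ) : ℤ_[P]) ^ m - (s : ℤ_[P]) := by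
      rw [map_sub, map_pow, aeval_X, aeval_C]
      simp
    have e3 : (C ((m : ℕ) : ℤ) : ℤ[X]) = C (m : ℤ) := rfl
    rw [e2]
    have e4 : ‖aeval ((a : ℤ) : ℤ_[P]) (C (m : ℤ) * X ^ (m - 1) : ℤ[X])‖ = 1 := by
      rw [e1]
      exact hd _ (by rw [hto, ha])
    rw [e4, one_pow, hnorm, map_sub, map_pow, hto, hto, ha, h, sub_self])
  have hg' : g ^ m = (s : ℤ_[P]) := by
    have e2 : aeval g (X ^ m - C s : ℤ[X]) = g ^ m - (s : ℤ_[P]) := by
      rw [map_sub, map_pow, aeval_X, aeval_C]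
      simp
    rw [e2, sub_eq_zero] at hg
    exact hg
  refine ⟨g, hg', ?_⟩
  have h5 : ‖g - ((a : ℤ) : ℤ_[P])‖ < 1 := hg2.trans_le (PadicInt.norm_le_one _)
  rw [hnorm, map_sub, hto, ha, sub_eq_zero] at h5
  exact h5

end padic

end Pool.Agent.Y160.T2
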