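import Pool.Agent.Y160.T2.Ext
import Pool.Agent.Y160.T2.GoodC
import Pool.Agent.Y160.T2.Point
import Pool.Agent.Y160.HI.Fin

/-!
# A positive proportion of the quadruples over finite fields
-/

set_option autoImplicit false
set_option linter.all false

open Polynomial

namespace Pool.Agent.Y160.T2

open Pool.Agent.Y232.FT2 (R)
open Pool.Agent.Y160.SL (IsResidue IsBinom finSurf surf ShaBasis binF fourF GoodQuad RootData)

theorem ZData_of {p m : ℕ} (hp : p.Prime) {F : Type} [Field F] {z : F} (h : RootData p m z)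
    (hm : 0 < m) : ZData p m z := by
  have hz0 : z ≠ 0 := h.prim.ne_zero hm.ne'
  have hR : ∀ a : F, a ≠ 0 → (∃ y : F, y ^ p = a) → R p a 1 := by
    rintro a ha ⟨y, hy⟩
    refine ⟨y, ?_, by rw [one_mul, hy]⟩
    rintro rfl
    rw [zero_pow hp.ne_zero] at hy
    exact ha hy.symm
  refine ⟨h.prim, fun n => hR _ (pow_ne_zero _ hz0) ?_, hR _ (neg_ne_zero.2 one_ne_zero) h.neg,
    fun i j hij => hR _ (sub_ne_zero.2 hij) (h.sub i j)⟩
  obtain ⟨y, hy⟩ := h.pow
  exact ⟨y ^ n, by rw [← hy, ← pow_mul, ← pow_mul, mul_comm]⟩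

theorem quad_of {p q s m N : ℕ} (hp : p.Prime) (hq : q = p ^ (s + 1)) (hm : 0 < m)
    (hcop : p.Coprime m) (hN : N.Prime) (hN2 : N ≠ 2) (hNp : N ≠ p) {F F' : Type} [Field F]
    [Finite F] [Field F'] [Algebra F F'] [FiniteDimensional F F']
    (hr : (p * N).Coprime (Module.finrank F F')) {ζ z : F} (hζ : IsPrimitiveRoot ζ q)
    (hz : IsPrimitiveRoot z m) {v : Fin 4 → F} (h3 : v 3 ≠ 0)
    (hG : GoodF p q m N z (v 0) (v 1) (v 2)) :
    GoodQuad p q m N F' (fun i => algebraMap F F' (v i)) := by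
  obtain ⟨γ, hγ0, hρ0, hres, hbin⟩ := hG
  haveI : Finite F' := Module.finite_of_finite F
  have hinj : Function.Injective (algebraMap F F') := (algebraMap F F').injective
  have hpN : p.Coprime N := (Nat.coprime_primes hp hN).2 hNp.symm
  have hz' : IsPrimitiveRoot (algebraMap F F' z) m := hz.map_of_injective hinj
  have hres' : IsResidue p q (fun i : Fin m => algebraMap F F' (v 1) * algebraMap F F' z ^ (i : ℕ))
      (fun i : Fin m => algebraMap F F' γ * algebraMap F F' z ^ (i : ℕ)) (algebraMap F F' (v 2)) := by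
    have h1 := residue_ext (k' := F') hp (Nat.Coprime.coprime_mul_right hr) hres
    simpa only [map_mul, map_pow] using h1
  have hbin' : ∀ e, IsBinom p (N ^ e)
      (fun i : Fin m => algebraMap F F' (v 1) * algebraMap F F' z ^ (i : ℕ))
      (fun i : Fin m => algebraMap F F' γ * algebraMap F F' z ^ (i : ℕ)) (algebraMap F F' (v 0)) := by
    intro e
    have h0 := hbin 1
    rw [pow_one] at h0
    have h1 := binom_ext (k' := F') hN hN2 hpN (Nat.Coprime.coprime_mul_left hr) h0 e
    simpa only [map_mul, map_pow] using h1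
  refine ⟨(_root_.map_ne_zero _).2 h3, fun e => ⟨?_, ?_⟩, ?_⟩
  · show ((X ^ (N ^ e) + C (algebraMap F F' (v 0))) ^ m - C (algebraMap F F' (v 1) ^ m)).Separable
    rw [← prodM hm hz']
    refine sep_prod _ ?_ fun i => ((hbin' e).irr i).1
    intro i j hij
    exact hres'.injρ (sub_right_injective hij)
  · show ((X ^ (N ^ e) + C (algebraMap F F' (v 0))) ^ m - C (algebraMap F F' (v 1) ^ m) +
      C (algebraMap F F' (v 2) ^ q)).Separable
    have e1 : ((X ^ (N ^ e) + C (algebraMap F F' (v 0))) ^ m - C (algebraMap F F' (v 1) ^ m) +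
        C (algebraMap F F' (v 2) ^ q) : F'[X]) =
        (X ^ (N ^ e) + C (algebraMap F F' (v 0))) ^ m - C (algebraMap F F' γ ^ m) := by
      have h1 := hres'.prod
      rw [prod_z hm hz', prod_z hm hz'] at h1
      linear_combination -h1
    rw [e1, ← prodM hm hz']
    refine sep_prod _ ?_ fun i => ((hbin' e).irr i).2
    intro i j hij
    exact hres'.injγ (sub_right_injective hij)
  · intro d e hd K _ _ _
    have h1 := Pool.Agent.Y160.HI.finFam hp hq hm hcop (hζ.map_of_injective hinj) hres' (hbin' e) hd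
      ((_root_.map_ne_zero (algebraMap F F')).2 h3) K
    have h2 : finSurf q (N ^ e) (p ^ d)
        (fun i : Fin m => algebraMap F F' (v 1) * algebraMap F F' z ^ (i : ℕ))
        (algebraMap F F' (v 0)) (algebraMap F F' (v 2)) (algebraMap F F' (v 3)) =
        fourF q m (N ^ e) (p ^ d) (fun i => algebraMap F F' (v i)) := by
      unfold finSurf fourF
      rw [prodM hm hz']
      rfl
    rw [h2] at h1
    exact h1

end Pool.Agent.Y160.T2
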