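import Pool.Agent.Y160.HI.Fin

/-!
# The conditions over the residue field imply those over the field of fractions
-/

set_option autoImplicit false
set_option linter.all false

open Polynomial IsDedekindDomain WithZero
open scoped nonZeroDivisors

namespace Pool.Agent.Y160.T2

open Pool.Agent.Y160.SL (IsResidue IsBinom)

section red

variable {O k F : Type} [CommRing O] [IsDomain O] [IsIntegrallyClosed O] [Field k]
  [Algebra O k] [IsFractionRing O k] [Field F]

/-- Relations modulo `p`-th powers give relations over the residue field. -/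
theorem red {p : ℕ} (hp : p ≠ 0) (π : O →+* F) {ι : Type} [Nonempty ι] {c : k} (hc : c ≠ 0)
    (A B : ι → O) (hA : ∀ i, IsUnit (A i)) (hB : ∀ i, IsUnit (B i))
    (h : ∀ i, ∃ y : k, y ≠ 0 ∧ c * algebraMap O k (A i) = algebraMap O k (B i) * y ^ p) :
    ∃ c' : F, c' ≠ 0 ∧ ∀ i, ∃ y : F, y ≠ 0 ∧ c' * π (A i) = π (B i) * y ^ p := by
  have hinj := IsFractionRing.injective O k
  obtain ⟨i₀⟩ := ‹Nonempty ι›
  obtain ⟨y₀, hy₀, e₀⟩ := h i₀
  obtain ⟨a₀, ha₀⟩ := hA i₀
  obtain ⟨b₀, hb₀⟩ := hB i₀
  have hak : algebraMap O k (a₀ : O) ≠ 0 := by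
    rw [Ne, map_eq_zero_iff _ hinj]; exact a₀.ne_zero
  have hbk : algebraMap O k (b₀ : O) ≠ 0 := by
    rw [Ne, map_eq_zero_iff _ hinj]; exact b₀.ne_zero
  have haa : algebraMap O k (a₀ : O) * algebraMap O k ((a₀⁻¹ : Oˣ) : O) = 1 := by
    rw [← map_mul, Units.mul_inv, map_one]
  -- the constant is `b₀ / a₀` times a `p`-th power
  have hcc : c = algebraMap O k ((b₀ * a₀⁻¹ : Oˣ) : O) * y₀ ^ p := by
    rw [← ha₀, ← hb₀] at e₀
    rw [Units.val_mul, map_mul]
    calc c = c * (algebraMap O k (a₀ : O) * algebraMap O k ((a₀⁻¹ : Oˣ) : O)) := by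
            rw [haa, mul_one]
      _ = (c * algebraMap O k (a₀ : O)) * algebraMap O k ((a₀⁻¹ : Oˣ) : O) := by ring
      _ = _ := by rw [e₀]; ring
  refine ⟨π ((b₀ * a₀⁻¹ : Oˣ) : O), ((b₀ * a₀⁻¹ : Oˣ).isUnit.map π).ne_zero, fun i => ?_⟩
  obtain ⟨y, hy, e⟩ := h i
  obtain ⟨b, hb⟩ := hB i
  have hbb : algebraMap O k (b : O) * algebraMap O k ((b⁻¹ : Oˣ) : O) = 1 := by
    rw [← map_mul, Units.mul_inv, map_one]
  have hy₀p : y₀ ^ p ≠ 0 := pow_ne_zero _ hy₀
  have e1 : algebraMap O k (((b₀ * a₀⁻¹ : Oˣ) : O) * A i * ((b⁻¹ : Oˣ) : O)) = (y / y₀) ^ p := by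
    rw [hcc, ← hb] at e
    rw [map_mul, map_mul, div_pow, eq_div_iff hy₀p]
    calc algebraMap O k ((b₀ * a₀⁻¹ : Oˣ) : O) * algebraMap O k (A i) *
          algebraMap O k ((b⁻¹ : Oˣ) : O) * y₀ ^ p
        = (algebraMap O k ((b₀ * a₀⁻¹ : Oˣ) : O) * y₀ ^ p * algebraMap O k (A i)) *
          algebraMap O k ((b⁻¹ : Oˣ) : O) := by ring
      _ = (algebraMap O k (b : O) * algebraMap O k ((b⁻¹ : Oˣ) : O)) * y ^ p := by rw [e]; ring
      _ = y ^ p := by rw [hbb, one_mul]
  -- the quotient is in `O`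
  have hint : IsIntegral O (y / y₀) := by
    refine IsIntegral.of_pow (Nat.pos_of_ne_zero hp) ?_
    rw [← e1]
    exact isIntegral_algebraMap
  obtain ⟨w, hw⟩ := IsIntegrallyClosed.isIntegral_iff.1 hint
  rw [← hw, ← map_pow] at e1
  have e2 := hinj e1
  have hwu : IsUnit w := by
    have h1 : IsUnit (w ^ p) := by
      rw [← e2]
      exact ((b₀ * a₀⁻¹ : Oˣ).isUnit.mul (hA i)).mul (b⁻¹ : Oˣ).isUnit
    exact (isUnit_pow_iff hp).1 h1
  refine ⟨π w, (hwu.map π).ne_zero, ?_⟩
  rw [← map_mul, ← map_pow, ← map_mul, ← e2, ← hb]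
  congr 1
  calc ((b₀ * a₀⁻¹ : Oˣ) : O) * A i = ((b₀ * a₀⁻¹ : Oˣ) : O) * A i * ((b : O) * ((b⁻¹ : Oˣ) : O)) := by
        rw [Units.mul_inv, mul_one]
    _ = _ := by ring

end red

section lift

variable {O k F : Type} [CommRing O] [IsDomain O] [IsIntegrallyClosed O] [Field k]
  [Algebra O k] [IsFractionRing O k] [Field F] (π : O →+* F) [IsLocalHom π]

/-- The conditions on the residue classes. -/
theorem residue_lift {p q m : ℕ} (hp : p ≠ 0) (hq : q ≠ 0) {ρ γ : Fin m → O} {β : O}
    (hprod : ∏ i, (X - C (γ i)) = ∏ i, (X - C (ρ i)) + C (β ^ q))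
    (h : IsResidue p q (fun i => π (ρ i)) (fun i => π (γ i)) (π β)) :
    IsResidue p q (fun i => algebraMap O k (ρ i)) (fun i => algebraMap O k (γ i))
      (algebraMap O k β) := by
  have hinj := IsFractionRing.injective O k
  have hne : ∀ x : O, π x ≠ 0 → IsUnit x := fun x hx =>
    IsUnit.of_map π x (IsUnit.mk0 _ hx)
  have hρ : ∀ i j, i ≠ j → IsUnit (ρ i - ρ j) := fun i j hij => hne _ (by
    rw [map_sub, sub_ne_zero]
    exact fun e => hij (h.injρ e))
  -- `γ j ≠ ρ i`
  have hγρ : ∀ i j, IsUnit (γ j - ρ i) := by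
    intro i j
    refine hne _ ?_
    rw [map_sub]
    intro h0
    have h1 := congrArg (eval (π (γ j))) h.prod
    rw [eval_add, eval_C, eval_prod, eval_prod] at h1
    rw [Finset.prod_eq_zero (Finset.mem_univ j) (by rw [eval_sub, eval_X, eval_C, sub_self]),
      Finset.prod_eq_zero (Finset.mem_univ i) (by rw [eval_sub, eval_X, eval_C, h0]), zero_add] at h1
    exact pow_ne_zero q h.ne h1.symm
  refine ⟨?_, ?_, ?_, ?_, ?_, ?_, ?_⟩
  · intro h0
    apply h.ne
    rw [map_eq_zero_iff _ hinj] at h0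
    rw [h0, map_zero]
  · have h1 := congrArg (Polynomial.map (algebraMap O k)) hprod
    rw [Polynomial.map_add, Polynomial.map_prod, Polynomial.map_prod, Polynomial.map_C] at h1
    simpa only [Polynomial.map_sub, Polynomial.map_X, Polynomial.map_C, map_pow] using h1
  · intro i j hij
    exact h.injρ (congrArg π (hinj hij))
  · intro i j hij
    exact h.injγ (congrArg π (hinj hij))
  · intro c e hc hrel i j
    haveI : Nonempty (Fin m) := ⟨i⟩
    obtain ⟨c', hc', h'⟩ := red hp π hc (fun i => ∏ j ∈ Finset.univ.erase i, (ρ i - ρ j) ^ e j)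
      (fun i => (∏ j ∈ Finset.univ.erase i, (ρ i - ρ j)) ^ e i)
      (fun i => by
        rw [IsUnit.prod_iff]
        exact fun j hj => (hρ i j (Finset.ne_of_mem_erase hj).symm).pow _)
      (fun i => by
        refine IsUnit.pow _ ?_
        rw [IsUnit.prod_iff]
        exact fun j hj => hρ i j (Finset.ne_of_mem_erase hj).symm)
      (fun i => by
        obtain ⟨y, hy, e'⟩ := hrel i
        refine ⟨y, hy, ?_⟩
        rw [map_prod, map_pow, map_prod]
        simp only [map_pow, map_sub]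
        exact e')
    refine h.same c' e hc' (fun i => ?_) i j
    obtain ⟨y, hy, e'⟩ := h' i
    refine ⟨y, hy, ?_⟩
    rw [map_prod, map_pow, map_prod] at e'
    simp only [map_pow, map_sub] at e'
    exact e'
  · intro c e hc hrel i j
    haveI : Nonempty (Fin m) := ⟨i⟩
    obtain ⟨c', hc', h'⟩ := red hp π hc (fun j => ∏ i, (γ j - ρ i) ^ e i) (fun _ => 1)
      (fun j => by
        rw [IsUnit.prod_iff]
        exact fun i _ => (hγρ i j).pow _)
      (fun _ => isUnit_one)
      (fun j => by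
        obtain ⟨y, e'⟩ := hrel j
        have hu : algebraMap O k (∏ i, (γ j - ρ i) ^ e i) ≠ 0 := by
          rw [Ne, map_eq_zero_iff _ hinj, Finset.prod_eq_zero_iff]
          rintro ⟨i, -, hi⟩
          exact ((hγρ i j).pow (e i)).ne_zero hi
        have e2 : c * algebraMap O k (∏ i, (γ j - ρ i) ^ e i) = y ^ p := by
          rw [map_prod]
          simp only [map_pow, map_sub]
          exact e'
        refine ⟨y, ?_, ?_⟩
        · rintro rfl
          rw [zero_pow hp] at e2
          exact mul_ne_zero hc hu e2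
        · rw [map_one, one_mul]; exact e2)
    refine h.rows c' e hc' (fun j => ?_) i j
    obtain ⟨y, hy, e'⟩ := h' j
    refine ⟨y, ?_⟩
    rw [map_prod, map_one, one_mul] at e'
    simp only [map_pow, map_sub] at e'
    exact e'
  · intro c e hc hrel i j
    haveI : Nonempty (Fin m) := ⟨i⟩
    have hργ : ∀ i j, IsUnit (ρ i - γ j) := fun i j => by
      have := (hγρ i j).neg
      rwa [neg_sub] at this
    obtain ⟨c', hc', h'⟩ := red hp π hc (fun i => ∏ j, (ρ i - γ j) ^ e j) (fun _ => 1)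
      (fun i => by
        rw [IsUnit.prod_iff]
        exact fun j _ => (hργ i j).pow _)
      (fun _ => isUnit_one)
      (fun i => by
        obtain ⟨y, e'⟩ := hrel i
        have hu : algebraMap O k (∏ j, (ρ i - γ j) ^ e j) ≠ 0 := by
          rw [Ne, map_eq_zero_iff _ hinj, Finset.prod_eq_zero_iff]
          rintro ⟨j, -, hj⟩
          exact ((hργ i j).pow (e j)).ne_zero hj
        have e2 : c * algebraMap O k (∏ j, (ρ i - γ j) ^ e j) = y ^ p := by
          rw [map_prod]
          simp only [map_pow, map_sub]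
          exact e'
        refine ⟨y, ?_, ?_⟩
        · rintro rfl
          rw [zero_pow hp] at e2
          exact mul_ne_zero hc hu e2
        · rw [map_one, one_mul]; exact e2)
    refine h.cols c' e hc' (fun i => ?_) i j
    obtain ⟨y, hy, e'⟩ := h' i
    refine ⟨y, ?_⟩
    rw [map_prod, map_one, one_mul] at e'
    simp only [map_pow, map_sub] at e'
    exact e'

/-- Irreducible binomials. -/
theorem binom_lift {p M m : ℕ} {ρ γ : Fin m → O} {τ : O}
    (h : IsBinom p M (fun i => π (ρ i)) (fun i => π (γ i)) (π τ)) :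
    IsBinom p M (fun i => algebraMap O k (ρ i)) (fun i => algebraMap O k (γ i))
      (algebraMap O k τ) := by
  have hinj := IsFractionRing.injective O k
  have hM0 : M ≠ 0 := by
    rintro rfl
    exact h.ne (by rw [Nat.cast_zero])
  have key : ∀ a b : O, Irreducible (X ^ M + C (π a - π b) : F[X]) →
      Irreducible (X ^ M + C (algebraMap O k a - algebraMap O k b) : k[X]) := by
    intro a b hirr
    have hm : (X ^ M + C (a - b) : O[X]).Monic := monic_X_pow_add_C _ hM0
    have h1 : Irreducible (X ^ M + C (a - b) : O[X]) := by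
      refine hm.irreducible_of_irreducible_map π _ ?_
      rw [Polynomial.map_add, Polynomial.map_pow, Polynomial.map_X, Polynomial.map_C, map_sub]
      exact hirr
    have h2 := (hm.irreducible_iff_irreducible_map_fraction_map (K := k)).1 h1
    rw [Polynomial.map_add, Polynomial.map_pow, Polynomial.map_X, Polynomial.map_C, map_sub] at h2
    exact h2
  refine ⟨h.cop, ?_, fun i => ⟨key _ _ (h.irr i).1, key _ _ (h.irr i).2⟩⟩
  intro h0
  apply h.ne
  have h1 : algebraMap O k (M : O) = 0 := by rw [map_natCast]; exact h0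
  rw [map_eq_zero_iff _ hinj] at h1
  have h2 := congrArg π h1
  rw [map_natCast, map_zero] at h2
  exact h2

end lift

end Pool.Agent.Y160.T2
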