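import Pool.Agent.Y160.T2.Lift
import Pool.Agent.Y160.T2.Ex
import Pool.Agent.Y160.T2.Cyc
import Pool.Agent.Y160.SL.Red

/-!
# Surfaces over number fields whose reduction has the same rank
-/

set_option autoImplicit false
set_option linter.all false

open Polynomial IsDedekindDomain WithZero
open scoped nonZeroDivisors

namespace Pool.Agent.Y160.T2

open Pool.Agent.TH115.GD (IsTower)
open Pool.Agent.Y160.FT
open Pool.Agent.Y160.HI (conclB nest_cons)
open Pool.Agent.Y160.SL (nest surf IsBasisAt IsResidue IsBinom ShaBasis finSurf Concl IsReduction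
  surfOver)

section fin

variable {k : Type} [Field k]

/-- The conclusions for the family. -/
theorem finFamT {p q s m : ℕ} (hp : p.Prime) (hq : q = p ^ (s + 1)) (hm : 0 < m)
    (hcop : p.Coprime m) {ζ : k} (hζ : IsPrimitiveRoot ζ q) {ρ γ : Fin m → k} {β τ c : k}
    (hR : IsResidue p q ρ γ β) {M : ℕ} (hB : IsBinom p M ρ γ τ) {d : ℕ} (hd : 0 < d) (hc : c ≠ 0)
    {k' K F : Type} [Field k'] [Algebra k k'] [Field K] [Algebra k[X] K]
    [IsFractionRing k[X] K] [Field F] [Algebra k'[X] F] [IsFractionRing k'[X] F] [Algebra K F]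
    (hT : IsTower k k' K F) :
    Concl p q (m - 1) k k' F ((finSurf q M (p ^ d) ρ τ β c).map (algebraMap k[X] K)) := by
  obtain ⟨hM, hMk, hirr⟩ := hB
  obtain ⟨n, rfl⟩ : ∃ n, d = n + 1 := ⟨d - 1, by omega⟩
  have hM0 : 0 < M := by
    rcases Nat.eq_zero_or_pos M with h | h
    · exact absurd (by rw [h, Nat.cast_zero]) hMk
    · exact h
  have hC := Pool.Agent.Y691.FT2.stSplit p q s m M k ρ γ β τ c (List.replicate n 1) hp hq hcop hM hm
    hMk hR.ne hc (fun a ha => by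
      rw [List.eq_of_mem_replicate ha]; exact one_ne_zero) hR.prod hR.injρ hR.injγ
    (fun i => (hirr i).1) (fun i => (hirr i).2) hR.same hR.rows hR.cols
  have e : ((C β, c) :: (List.replicate n (1 : k)).map fun a' => ((0 : k[X]), a')) =
      (((β, c) :: List.replicate n ((0 : k), (1 : k))).map fun x => ((C x.1 : k[X]), x.2)) := by
    rw [List.map_cons, List.map_replicate, List.map_replicate, C_0]
  rw [e] at hC
  have h := conclB (F := F) (k' := k') (K := K) hT hp hq hζ hC.base (asm2 hp hq hζ hC) hm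
    (fun i => (X ^ M + C (τ - ρ i) : k[X])) (fun i => ⟨(hirr i).1, monic_X_pow_add_C _ hM0.ne'⟩)
    (by
      intro i j hij
      have h1 : C (τ - ρ i) = C (τ - ρ j) := add_left_cancel hij
      exact hR.injρ (sub_right_injective (C_injective h1))) rfl
  rw [nest_cons] at h
  exact h

end fin

section main

variable {O k F : Type} [CommRing O] [IsDomain O] [IsIntegrallyClosed O] [Field k]
  [Algebra O k] [IsFractionRing O k] [Field F] (π : O →+* F) [IsLocalHom π]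

/-- The surface over `k`. -/
theorem over_k {p q s m : ℕ} (hp : p.Prime) (hq : q = p ^ (s + 1)) (hm : 0 < m)
    (hcop : p.Coprime m) {ζ : O} (hζ : IsPrimitiveRoot ζ q) {ρ γ : Fin m → O} {β τ c : O} {M : ℕ}
    (h : IsReduction π p q M ρ γ β τ) {d : ℕ} (hd : 0 < d) (hc : π c ≠ 0)
    {k' K L : Type} [Field k'] [Algebra k k'] [Field K] [Algebra k[X] K]
    [IsFractionRing k[X] K] [Field L] [Algebra k'[X] L] [IsFractionRing k'[X] L] [Algebra K L]
    (hT : IsTower k k' K L) :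
    Concl p q (m - 1) k k' L (surfOver (algebraMap O k) q M (p ^ d) ρ τ β c K) := by
  have hinj := IsFractionRing.injective O k
  have hq0 : q ≠ 0 := by rw [hq]; exact pow_ne_zero _ hp.ne_zero
  refine finFamT hp hq hm hcop (hζ.map_of_injective hinj)
    (residue_lift π hp.ne_zero hq0 h.prod h.residue) (binom_lift π h.binom) hd ?_ hT
  intro h0
  apply hc
  rw [map_eq_zero_iff _ hinj] at h0
  rw [h0, map_zero]

/-- The surface over `F`. -/
theorem over_F {O F : Type} [CommRing O] [Field F] (π : O →+* F) {p q s m : ℕ} (hp : p.Prime)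
    (hq : q = p ^ (s + 1)) (hm : 0 < m)
    (hcop : p.Coprime m) {ζ : O} (hζ : IsPrimitiveRoot (π ζ) q) {ρ γ : Fin m → O} {β τ c : O} {M : ℕ}
    (h : IsReduction π p q M ρ γ β τ) {d : ℕ} (hd : 0 < d) (hc : π c ≠ 0)
    (K : Type) [Field K] [Algebra F[X] K] [IsFractionRing F[X] K] :
    ShaBasis p q (m - 1) F (surfOver π q M (p ^ d) ρ τ β c K) :=
  Pool.Agent.Y160.HI.finFam hp hq hm hcop hζ h.residue h.binom hd hc K

end main

section ex

/-- Existence. -/
theorem exRed {p s m p₀ : ℕ} (hp : p.Prime) (hm : 0 < m) (hcop : p.Coprime m) (hp₀ : p₀.Prime)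
    (hne : p₀ ≠ p) (hcop₀ : p₀.Coprime m) :
    ∃ (k O F : Type) (_ : Field k) (_ : NumberField k) (_ : CommRing O) (_ : IsDomain O)
      (_ : IsDiscreteValuationRing O) (_ : Algebra O k) (_ : IsFractionRing O k) (_ : Field F)
      (π : O →+* F) (_ : IsLocalHom π) (ζ : O) (ρ γ : Fin m → O) (β τ : O) (N : ℕ),
      Finite F ∧ CharP F p₀ ∧ IsPrimitiveRoot ζ (p ^ (s + 1)) ∧ IsPrimitiveRoot (π ζ) (p ^ (s + 1)) ∧
      π τ ≠ 0 ∧ 1 < N ∧ ∀ e : ℕ, IsReduction π p (p ^ (s + 1)) (N ^ e) ρ γ β τ := by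
  obtain ⟨F, _, ζF, zF, κF, τF, e', j, N, hfin, hchar, hζF, hzF, hκF, hτF, hj, hN, hR, hB⟩ :=
    exF2 Pool.Agent.Y823.FT2.stCnt hp (q := p ^ (s + 1)) rfl hp₀ hne hcop hcop₀ hm
  obtain ⟨k, O, _, _, _, _, _, _, _, π, _, Z, n, hZ, hπZ, hpow⟩ := cyc F
  obtain ⟨aζ, hζ⟩ := hpow ζF (hζF.ne_zero (pow_pos hp.pos _).ne')
  obtain ⟨az, hz⟩ := hpow zF (hzF.ne_zero hm.ne')
  obtain ⟨aκ, hκ⟩ := hpow κF hκF
  obtain ⟨τ, hτ⟩ : ∃ τ : O, π τ = τF := by
    obtain ⟨a, ha⟩ := hpow τF hτF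
    exact ⟨Z ^ a, by rw [map_pow, ha]⟩
  have hζO : IsPrimitiveRoot (Z ^ aζ) (p ^ (s + 1)) := prim_pow hπZ hZ (hζ ▸ hζF)
  have hzO : IsPrimitiveRoot (Z ^ az) m := prim_pow hπZ hZ (hz ▸ hzF)
  have e1 : ∀ i : Fin m, π ((1 - (Z ^ aκ) ^ m) ^ e' * (Z ^ az) ^ (i : ℕ)) =
      (1 - κF ^ m) ^ e' * zF ^ (i : ℕ) := by
    intro i
    rw [map_mul, map_pow, map_pow, map_sub, map_one, map_pow, map_pow, map_pow, hκ, hz]
  have e2 : ∀ i : Fin m, π ((Z ^ aκ) * (1 - (Z ^ aκ) ^ m) ^ e' * (Z ^ az) ^ (i : ℕ)) =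
      κF * (1 - κF ^ m) ^ e' * zF ^ (i : ℕ) := by
    intro i
    rw [mul_assoc, map_mul, e1, map_pow, ← hκ, mul_assoc]
  have e3 : π ((1 - (Z ^ aκ) ^ m) ^ j) = (1 - κF ^ m) ^ j := by
    rw [map_pow, map_sub, map_one, map_pow, map_pow, hκ]
  refine ⟨k, O, F, inferInstance, inferInstance, inferInstance, inferInstance, inferInstance,
    inferInstance, inferInstance, inferInstance, π, inferInstance, Z ^ aζ,
    fun i => (1 - (Z ^ aκ) ^ m) ^ e' * (Z ^ az) ^ (i : ℕ),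
    fun i => (Z ^ aκ) * (1 - (Z ^ aκ) ^ m) ^ e' * (Z ^ az) ^ (i : ℕ),
    (1 - (Z ^ aκ) ^ m) ^ j, τ, N, hfin, hchar, hζO, ?_,
    by rw [hτ]; exact hτF, hN, fun e => ⟨?_, ?_, ?_⟩⟩
  · rw [map_pow, ← hζ]; exact hζF
  · have key : ∀ α : O, ∏ i : Fin m, (X - C (α * (Z ^ az) ^ (i : ℕ))) = X ^ m - C (α ^ m) := by
      intro α
      rw [X_pow_sub_C_eq_prod hzO (α := α) (a := α ^ m) hm rfl, ← Fin.prod_univ_eq_prod_range
        (fun i => X - C ((Z ^ az) ^ i * α)) m]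
      refine Finset.prod_congr rfl fun i _ => ?_
      rw [mul_comm]
    have hb : ((1 - (Z ^ aκ) ^ m) ^ j) ^ (p ^ (s + 1)) =
        ((1 - (Z ^ aκ) ^ m) ^ e') ^ m * (1 - (Z ^ aκ) ^ m) := by
      generalize 1 - (Z ^ aκ) ^ m = w
      rw [← pow_mul w j, hj, pow_succ, pow_mul]
    rw [key, key, hb, sub_add, ← C_sub]
    congr 2
    ring
  · simp only [e1, e2, e3]
    exact hR
  · simp only [e1, e2, hτ]
    exact hB e

end ex

end Pool.Agent.Y160.T2
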