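import Pool.Agent.Y160.T2.Point

/-!
# Integers with good residues: the conclusions
-/

set_option autoImplicit false
set_option linter.all false

open Polynomial

namespace Pool.Agent.Y160.T2

open Pool.Agent.TH115.GD (IsTower)
open Pool.Agent.Y232.FT2 (R)
open Pool.Agent.Y160.SL (IsResidue IsBinom IsReduction finSurf surfOver four overField surf FourConcl
  Works Concl ShaBasis binPoly SepMod)

variable {P : ℕ} [hP : Fact P.Prime]

/-- The conclusions over a subfield of the field of the `P`-adic numbers. -/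
theorem concl_of {p q s m N : ℕ} (hp : p.Prime) (hq : q = p ^ (s + 1)) (hm : 0 < m)
    (hcop : p.Coprime m) {k' : Type} [Field k'] (σ : k' →+* ℚ_[P]) {ζ z : k'}
    (hζ : IsPrimitiveRoot ζ q) (hz : IsPrimitiveRoot z m) {z' ζ' g' : ℤ_[P]}
    (hz' : (z' : ℚ_[P]) = σ z) (hζ' : (ζ' : ℚ_[P]) = σ ζ)
    (hζb : IsPrimitiveRoot (PadicInt.toZMod ζ') q) (hzb : ZData p m (PadicInt.toZMod z'))
    (hne : ((q * m * N : ℕ) : ZMod P) ≠ 0) {τ ρ β c : ℤ} (hc : (c : ZMod P) ≠ 0)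
    {γ : k'} (hγ' : (g' : ℚ_[P]) = σ γ) (hγ : γ ^ m = (ρ : k') ^ m - (β : k') ^ q)
    (hres : IsResidue p q (fun i : Fin m => (ρ : ZMod P) * PadicInt.toZMod z' ^ (i : ℕ))
      (fun i : Fin m => PadicInt.toZMod g' * PadicInt.toZMod z' ^ (i : ℕ)) (β : ZMod P))
    (hbin : ∀ e : ℕ, IsBinom p (N ^ e)
      (fun i : Fin m => (ρ : ZMod P) * PadicInt.toZMod z' ^ (i : ℕ))
      (fun i : Fin m => PadicInt.toZMod g' * PadicInt.toZMod z' ^ (i : ℕ)) (τ : ZMod P)) :
    FourConcl p q m N τ ρ β c k' P := by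
  haveI := res_local σ
  -- the elements of the valuation ring
  have hzO : z ∈ vs σ := by rw [mem_vs, ← hz']; exact PadicInt.norm_le_one z'
  have hζO : ζ ∈ vs σ := by rw [mem_vs, ← hζ']; exact PadicInt.norm_le_one ζ'
  have hγO : γ ∈ vs σ := by rw [mem_vs, ← hγ']; exact PadicInt.norm_le_one g'
  have hcoe : Function.Injective (PadicInt.Coe.ringHom (p := P)) := fun a b h => PadicInt.ext h
  have rz : res σ ⟨z, hzO⟩ = PadicInt.toZMod z' := by
    have : toZ σ ⟨z, hzO⟩ = z' := PadicInt.ext (by rw [toZ_coe]; exact hz'.symm)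
    show PadicInt.toZMod (toZ σ ⟨z, hzO⟩) = _
    rw [this]
  have rζ : res σ ⟨ζ, hζO⟩ = PadicInt.toZMod ζ' := by
    have : toZ σ ⟨ζ, hζO⟩ = ζ' := PadicInt.ext (by rw [toZ_coe]; exact hζ'.symm)
    show PadicInt.toZMod (toZ σ ⟨ζ, hζO⟩) = _
    rw [this]
  have rγ : res σ ⟨γ, hγO⟩ = PadicInt.toZMod g' := by
    have : toZ σ ⟨γ, hγO⟩ = g' := PadicInt.ext (by rw [toZ_coe]; exact hγ'.symm)
    show PadicInt.toZMod (toZ σ ⟨γ, hγO⟩) = _
    rw [this]
  have hsub : Function.Injective (vs σ).subtype := Subtype.val_injective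
  have hzOp : IsPrimitiveRoot (⟨z, hzO⟩ : vs σ) m :=
    IsPrimitiveRoot.of_map_of_injective (f := (vs σ).subtype) hz hsub
  have hζOp : IsPrimitiveRoot (⟨ζ, hζO⟩ : vs σ) q :=
    IsPrimitiveRoot.of_map_of_injective (f := (vs σ).subtype) hζ hsub
  have hγOm : (⟨γ, hγO⟩ : vs σ) ^ m = ((ρ : ℤ) : vs σ) ^ m - ((β : ℤ) : vs σ) ^ q := by
    apply hsub
    rw [map_pow, map_sub, map_pow, map_pow, map_intCast, map_intCast]
    exact hγ
  -- the data
  have hred : ∀ e : ℕ, IsReduction (res σ) p q (N ^ e)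
      (fun i : Fin m => ((ρ : ℤ) : vs σ) * (⟨z, hzO⟩ : vs σ) ^ (i : ℕ))
      (fun i : Fin m => (⟨γ, hγO⟩ : vs σ) * (⟨z, hzO⟩ : vs σ) ^ (i : ℕ)) ((β : ℤ) : vs σ)
      ((τ : ℤ) : vs σ) := by
    intro e
    refine ⟨?_, ?_, ?_⟩
    · rw [prod_z hm hzOp, prod_z hm hzOp, hγOm, sub_add, ← C_sub]
    · simp only [map_mul, map_pow, map_intCast, rz, rγ]
      exact hres
    · simp only [map_mul, map_pow, map_intCast, rz, rγ]
      exact hbin e
  have hcO : res σ ((c : ℤ) : vs σ) ≠ 0 := by rw [map_intCast]; exact hc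
  have hmF : (m : ZMod P) ≠ 0 := by
    intro h0
    apply hne
    rw [Nat.cast_mul, Nat.cast_mul, h0, mul_zero, zero_mul]
  refine ⟨⟨hne, hc⟩, fun e => ⟨?_, ?_⟩, ?_, ?_⟩
  · unfold SepMod
    rw [binPoly_map, ← prodM hm hzb.prim]
    refine sep_prod _ ?_ fun i => ((hbin e).irr i).1
    intro i j hij
    exact hres.injρ (sub_right_injective hij)
  · have e1 : ((X ^ (N ^ e) + C (τ : ZMod P)) ^ m - C ((ρ : ZMod P) ^ m) + C ((β : ZMod P) ^ q) :
        (ZMod P)[X]) = (X ^ (N ^ e) + C (τ : ZMod P)) ^ m - C (PadicInt.toZMod g' ^ m) := by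
      have h1 := hres.prod
      rw [prod_z hm hzb.prim, prod_z hm hzb.prim] at h1
      linear_combination -h1
    unfold SepMod
    rw [Polynomial.map_add, binPoly_map, Polynomial.map_C, eq_intCast, Int.cast_pow, e1,
      ← prodM hm hzb.prim]
    refine sep_prod _ ?_ fun i => ((hbin e).irr i).2
    intro i j hij
    exact hres.injγ (sub_right_injective hij)
  · intro d e hd k'' K L _ _ _ _ _ _ _ _ _ hT
    have h1 := over_k (O := vs σ) (k := k') (F := ZMod P) (res σ) hp hq hm hcop hζOp (hred e) hd hcO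
      hT
    have h2 : surfOver (algebraMap (vs σ) k') q (N ^ e) (p ^ d)
        (fun i : Fin m => ((ρ : ℤ) : vs σ) * (⟨z, hzO⟩ : vs σ) ^ (i : ℕ)) ((τ : ℤ) : vs σ)
        ((β : ℤ) : vs σ) ((c : ℤ) : vs σ) K = overField k' K (four q m (N ^ e) (p ^ d) τ ρ β c) := by
      unfold surfOver overField
      rw [← four_eq hm hz]
      congr 1
    rw [h2] at h1
    exact h1
  · intro d e hd K _ _ _
    have h1 := over_F (O := vs σ) (F := ZMod P) (res σ) hp hq hm hcop
      (ζ := (⟨ζ, hζO⟩ : vs σ)) (by rw [rζ]; exact hζb) (hred e) hd hcO K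
    have h2 : surfOver (res σ) q (N ^ e) (p ^ d)
        (fun i : Fin m => ((ρ : ℤ) : vs σ) * (⟨z, hzO⟩ : vs σ) ^ (i : ℕ)) ((τ : ℤ) : vs σ)
        ((β : ℤ) : vs σ) ((c : ℤ) : vs σ) K =
        overField (ZMod P) K (four q m (N ^ e) (p ^ d) τ ρ β c) := by
      unfold surfOver overField
      rw [← four_eq hm hzb.prim]
      congr 1
      simp only [map_mul, map_pow, map_intCast, rz]
    rw [h2] at h1
    exact h1

/-- Integers with good residues. -/
theorem point {p q s m N : ℕ} (hp : p.Prime) (hq : q = p ^ (s + 1)) (hm : 0 < m)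
    (hcop : p.Coprime m) {k : Type} [Field k] {ζ z : k} (hζ : IsPrimitiveRoot ζ q)
    (hz : IsPrimitiveRoot z m) (σ : k →+* ℚ_[P]) {z' ζ' : ℤ_[P]} (hz' : (z' : ℚ_[P]) = σ z)
    (hζ' : (ζ' : ℚ_[P]) = σ ζ) (hζb : IsPrimitiveRoot (PadicInt.toZMod ζ') q)
    (hzb : ZData p m (PadicInt.toZMod z')) (hne : ((q * m * N : ℕ) : ZMod P) ≠ 0)
    {τ ρ β c : ℤ} (hc : (c : ZMod P) ≠ 0)
    (hG : GoodF p q m N (PadicInt.toZMod z') (τ : ZMod P) (ρ : ZMod P) (β : ZMod P)) :
    Works p q m N k τ ρ β c := by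
  obtain ⟨γb, hγ0, hρ0, hres, hbin⟩ := hG
  have hmF : (m : ZMod P) ≠ 0 := by
    intro h0
    apply hne
    rw [Nat.cast_mul, Nat.cast_mul, h0, mul_zero, zero_mul]
  have hγm : γb ^ m = ((ρ ^ m - β ^ q : ℤ) : ZMod P) := by
    have h1 := hres.prod
    rw [prod_z hm hzb.prim, prod_z hm hzb.prim] at h1
    have h2 : (C (γb ^ m) : (ZMod P)[X]) = C ((ρ : ZMod P) ^ m - (β : ZMod P) ^ q) := by
      rw [C_sub]
      linear_combination -h1
    rw [C_injective h2]
    push_cast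
    rfl
  obtain ⟨g, hg, hgb⟩ := hensel_root hmF _ hγ0 hγm
  letI : Algebra k ℚ_[P] := σ.toAlgebra
  have hmem : (g : ℚ_[P]) ∈ IntermediateField.adjoin k {(g : ℚ_[P])} :=
    IntermediateField.mem_adjoin_simple_self k _
  let k' := IntermediateField.adjoin k {(g : ℚ_[P])}
  let σ' : k' →+* ℚ_[P] := algebraMap k' ℚ_[P]
  have hσ' : ∀ x : k, σ' (algebraMap k k' x) = σ x := fun x => rfl
  have hγeq : (⟨(g : ℚ_[P]), hmem⟩ : k') ^ m = (ρ : k') ^ m - (β : k') ^ q := by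
    apply Subtype.ext
    have h1 := congrArg (fun x : ℤ_[P] => (x : ℚ_[P])) hg
    push_cast at h1 ⊢
    exact h1
  refine ⟨k', inferInstance, inferInstance, ⟨(g : ℚ_[P]), hmem⟩, P, hP, hγeq, ?_, ⟨σ'⟩, ?_⟩
  · apply IntermediateField.map_injective k'.val
    rw [IntermediateField.adjoin_map, Set.image_singleton, ← AlgHom.fieldRange_eq_map,
      IntermediateField.fieldRange_val]
    rfl
  · refine concl_of (z' := z') (ζ' := ζ') (g' := g) hp hq hm hcop σ'
      (hζ.map_of_injective (algebraMap k k').injective)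
      (hz.map_of_injective (algebraMap k k').injective) hz' hζ' hζb hzb hne hc rfl hγeq ?_ ?_
    · rw [hgb]; exact hres
    · intro e; rw [hgb]; exact hbin e

end Pool.Agent.Y160.T2
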